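import Mathlib

/-!
# Linear foldings

A linear folding `F : V → W` between real inner product spaces is a continuous map such that there
is a finite set of linear isometries `A` with `F x ∈ {A x}` for each `x`.
-/

set_option autoImplicit false

namespace Pool.Agent.Fold

open Set Filter Topology
open scoped RealInnerProductSpace

variable {V W X : Type*} [NormedAddCommGroup V] [InnerProductSpace ℝ V]
  [NormedAddCommGroup W] [InnerProductSpace ℝ W] [NormedAddCommGroup X] [InnerProductSpace ℝ X]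

/-- A continuous map which is pointwise one of finitely many linear isometries. -/
structure IsFold (F : V → W) : Prop where
  cont : Continuous F
  fin : ∃ 𝒜 : Set (V →ₗᵢ[ℝ] W), 𝒜.Finite ∧ ∀ x, ∃ A ∈ 𝒜, F x = A x

namespace IsFold

lemma of_isometry (A : V →ₗᵢ[ℝ] W) : IsFold (A : V → W) :=
  ⟨A.continuous, {A}, finite_singleton A, fun _ => ⟨A, rfl, rfl⟩⟩

lemma comp {G : W → X} {F : V → W} (hG : IsFold G) (hF : IsFold F) : IsFold (G ∘ F) := by
  obtain ⟨hGc, ℬ, hℬ, hGB⟩ := hG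
  obtain ⟨hFc, 𝒜, h𝒜, hFA⟩ := hF
  refine ⟨hGc.comp hFc, image2 (fun B A => B.comp A) ℬ 𝒜, hℬ.image2 _ h𝒜, fun x => ?_⟩
  obtain ⟨A, hA, hAx⟩ := hFA x
  obtain ⟨B, hB, hBx⟩ := hGB (F x)
  exact ⟨B.comp A, mem_image2_of_mem hB hA, by simp [hBx, ← hAx]⟩

lemma norm_map {F : V → W} (hF : IsFold F) (x : V) : ‖F x‖ = ‖x‖ := by
  obtain ⟨_, 𝒜, _, hFA⟩ := hF
  obtain ⟨A, _, hAx⟩ := hFA x
  rw [hAx, A.norm_map]

/-- Near `x`, the folding agrees with isometries that agree with it at `x`. -/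
lemma eventually {F : V → W} (hc : Continuous F) {𝒜 : Set (V →ₗᵢ[ℝ] W)} (hf : 𝒜.Finite)
    (hFA : ∀ x, ∃ A ∈ 𝒜, F x = A x) (x : V) :
    ∀ᶠ y in 𝓝 x, ∃ A ∈ 𝒜, F x = A x ∧ F y = A y := by
  have h1 : ∀ A ∈ 𝒜, ∀ᶠ y in 𝓝 x, F x ≠ A x → F y ≠ A y := by
    intro A _
    by_cases h : F x = A x
    · exact Eventually.of_forall fun y hy => absurd h hy
    · have : ∀ᶠ y in 𝓝 x, F y ≠ A y := by
        have hopen : IsOpen {y | F y ≠ A y} := isOpen_ne_fun hc A.continuous
        exact hopen.mem_nhds h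
      exact this.mono fun y hy _ => hy
  have h2 := (eventually_all_finite hf).mpr h1
  refine h2.mono fun y hy => ?_
  obtain ⟨A, hA, hAy⟩ := hFA y
  refine ⟨A, hA, ?_, hAy⟩
  by_contra h
  exact hy A hA h hAy

lemma eventually_norm {F : V → W} (hF : IsFold F) (x : V) :
    ∀ᶠ y in 𝓝 x, ‖F y - F x‖ = ‖y - x‖ := by
  obtain ⟨hc, 𝒜, hf, hFA⟩ := hF
  refine (eventually hc hf hFA x).mono ?_
  rintro y ⟨A, _, h1, h2⟩
  rw [h1, h2, ← map_sub, A.norm_map]

end IsFold

/-- A continuous path which is locally (to the right) `K`-Lipschitz at each point. -/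
lemma lip_of_local {E : Type*} [NormedAddCommGroup E] {φ : ℝ → E} {K : ℝ}
    (hφ : ContinuousOn φ (Icc 0 1))
    (h : ∀ t ∈ Ico (0 : ℝ) 1, ∀ᶠ s in 𝓝[>] t, ‖φ s - φ t‖ ≤ K * (s - t)) :
    ‖φ 1 - φ 0‖ ≤ K := by
  have hclosed : IsClosed ({t : ℝ | ‖φ t - φ 0‖ ≤ K * t} ∩ Icc 0 1) := by
    have h1 : ContinuousOn (fun t => ‖φ t - φ 0‖ - K * t) (Icc 0 1) :=
      ((hφ.sub continuousOn_const).norm).sub (by fun_prop)
    have h2 := h1.preimage_isClosed_of_isClosed isClosed_Icc (isClosed_Iic (a := (0 : ℝ)))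
    convert h2 using 1
    ext t
    simp only [mem_inter_iff, mem_ofPred_eq, mem_preimage, mem_Iic, sub_nonpos]
    tauto
  have hsub := hclosed.Icc_subset_of_forall_exists_gt (by simp) (by
    rintro t ⟨ht1, ht2⟩ y hy
    have h3 := h t ht2
    have h4 : ∀ᶠ s in 𝓝[>] t, s ∈ Ioc t y := Ioc_mem_nhdsGT hy
    obtain ⟨s, hs1, hs2⟩ := (h3.and h4).exists
    refine ⟨s, ?_, hs2⟩
    simp only [mem_ofPred_eq] at ht1 ⊢
    calc ‖φ s - φ 0‖ = ‖(φ s - φ t) + (φ t - φ 0)‖ := by congr 1; abel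
      _ ≤ ‖φ s - φ t‖ + ‖φ t - φ 0‖ := norm_add_le _ _
      _ ≤ K * (s - t) + K * t := add_le_add hs1 ht1
      _ = K * s := by ring)
  have := hsub (right_mem_Icc.mpr zero_le_one)
  simpa using this

namespace IsFold

lemma lipschitz {F : V → W} (hF : IsFold F) (x y : V) : ‖F y - F x‖ ≤ ‖y - x‖ := by
  set φ : ℝ → W := fun t => F (x + t • (y - x)) with hφ
  have hc : Continuous φ := hF.cont.comp (by fun_prop)
  have key := lip_of_local (φ := φ) (K := ‖y - x‖) hc.continuousOn (by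
    intro t _
    have h1 := hF.eventually_norm (x + t • (y - x))
    have h2 : Tendsto (fun s : ℝ => x + s • (y - x)) (𝓝[>] t) (𝓝 (x + t • (y - x))) := by
      have : Continuous (fun s : ℝ => x + s • (y - x)) := by fun_prop
      exact this.continuousAt.tendsto.mono_left nhdsWithin_le_nhds
    have h3 : ∀ᶠ s in 𝓝[>] t, s ∈ Ioi t := self_mem_nhdsWithin
    filter_upwards [h2.eventually h1, h3] with s hs hst
    rw [mem_Ioi] at hst
    simp only [hφ]
    rw [hs]
    have : x + s • (y - x) - (x + t • (y - x)) = (s - t) • (y - x) := by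
      rw [sub_smul]; abel
    rw [this, norm_smul, Real.norm_of_nonneg (by linarith), mul_comm])
  simpa [hφ] using key

lemma inner_le {F : V → W} (hF : IsFold F) (x y : V) : ⟪x, y⟫ ≤ ⟪F x, F y⟫ := by
  have h1 := hF.lipschitz y x
  have h2 : ‖F x - F y‖ ^ 2 ≤ ‖x - y‖ ^ 2 := by gcongr
  rw [norm_sub_sq_real, norm_sub_sq_real, hF.norm_map, hF.norm_map] at h2
  linarith

lemma map_zero {F : V → W} (hF : IsFold F) : F 0 = 0 := by
  rw [← norm_eq_zero, hF.norm_map, norm_zero]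

end IsFold

end Pool.Agent.Fold
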