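import Pool.Agent.Lib_MP_9d9d56_gt.Stages

/-!
# Classification of linear foldings up to homotopy
-/

set_option autoImplicit false

namespace Pool.Agent.Fold

open Set Filter Topology Module
open scoped RealInnerProductSpace unitInterval

section

variable {V W : Type*} [NormedAddCommGroup V] [InnerProductSpace ℝ V]
  [NormedAddCommGroup W] [InnerProductSpace ℝ W]

/-- A folding commuting with `x ↦ -x` is a linear isometry. -/
lemma rigid_of_odd {F : V → W} (hF : IsFold F) (hodd : ∀ x, F (-x) = -F x) :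
    ∃ A : V →ₗᵢ[ℝ] W, F = A := by
  have hinner : ∀ x y, ⟪F x, F y⟫ = ⟪x, y⟫ := by
    intro x y
    apply le_antisymm
    · have h1 := hF.inner_le x (-y)
      rw [hodd, inner_neg_right, inner_neg_right] at h1
      linarith
    · exact hF.inner_le x y
  have hadd : ∀ x y, F (x + y) = F x + F y := by
    intro x y
    have h : ‖F (x + y) - (F x + F y)‖ ^ 2 = 0 := by
      rw [← real_inner_self_eq_norm_sq]
      simp only [inner_sub_left, inner_sub_right, inner_add_left, inner_add_right, hinner]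
      ring
    exact sub_eq_zero.mp (norm_eq_zero.mp (pow_eq_zero_iff two_ne_zero |>.mp h))
  have hsmul : ∀ (r : ℝ) x, F (r • x) = r • F x := by
    intro r x
    have h : ‖F (r • x) - r • F x‖ ^ 2 = 0 := by
      rw [← real_inner_self_eq_norm_sq]
      simp only [inner_sub_left, inner_sub_right, inner_smul_left, inner_smul_right, hinner,
        conj_trivial]
      ring
    exact sub_eq_zero.mp (norm_eq_zero.mp (pow_eq_zero_iff two_ne_zero |>.mp h))
  exact ⟨{ toFun := F, map_add' := hadd, map_smul' := hsmul, norm_map' := hF.norm_map }, rfl⟩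

/-- A good pole for the surgeries. -/
lemma exists_pole {F : V → W} (hF : IsFold F) (hr : ¬ ∃ A : V →ₗᵢ[ℝ] W, F = A) :
    ∃ (p₀ : V) (c : W), ‖p₀‖ = 1 ∧ ‖c‖ = 1 ∧ F p₀ ≠ -F (-p₀) ∧ (∀ x, 0 ≤ ⟪F x, c⟫) := by
  have h1 : ∃ x, F (-x) ≠ -F x := by
    by_contra h
    push Not at h
    exact hr (rigid_of_odd hF h)
  obtain ⟨x, hx⟩ := h1
  have hx0 : x ≠ 0 := by
    rintro rfl
    apply hx
    simp [hF.map_zero]
  have hxn : ‖x‖ ≠ 0 := norm_ne_zero_iff.mpr hx0
  set p : V := ‖x‖⁻¹ • x with hp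
  have hpn : ‖p‖ = 1 := by rw [hp, norm_smul, norm_inv, norm_norm, inv_mul_cancel₀ hxn]
  have hinv : 0 ≤ ‖x‖⁻¹ := by positivity
  have hFp : F p = ‖x‖⁻¹ • F x := hF.smul_nonneg hinv x
  have hFnp : F (-p) = ‖x‖⁻¹ • F (-x) := by
    rw [hp, ← smul_neg, hF.smul_nonneg hinv]
  have hne : F p ≠ -F (-p) := by
    rw [hFp, hFnp, ← smul_neg]
    intro h
    apply hx
    have := smul_right_injective W (inv_ne_zero hxn) h
    rw [this, neg_neg]
  have hc0 : F p + F (-p) ≠ 0 := fun h => hne (eq_neg_of_add_eq_zero_left h)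
  have hcn : ‖F p + F (-p)‖ ≠ 0 := norm_ne_zero_iff.mpr hc0
  refine ⟨p, ‖F p + F (-p)‖⁻¹ • (F p + F (-p)), hpn, ?_, hne, ?_⟩
  · rw [norm_smul, norm_inv, norm_norm, inv_mul_cancel₀ hcn]
  · intro y
    rw [inner_smul_right, inner_add_right]
    have h2 := hF.inner_le y p
    have h3 := hF.inner_le y (-p)
    rw [inner_neg_right] at h3
    have h4 : 0 ≤ ⟪F y, F p⟫ + ⟪F y, F (-p)⟫ := by linarith
    positivity

/-- In dimension at least two, we may also assume `F (-p) ≠ c`. -/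
lemma exists_good_pole {F : V → W} (hF : IsFold F) (hr : ¬ ∃ A : V →ₗᵢ[ℝ] W, F = A)
    (hdim : ∀ p : V, ∃ u : V, ‖u‖ = 1 ∧ ⟪u, p⟫ = 0) :
    ∃ (p : V) (c : W), ‖p‖ = 1 ∧ ‖c‖ = 1 ∧ F p ≠ -F (-p) ∧ F (-p) ≠ c ∧ (∀ x, 0 ≤ ⟪F x, c⟫) := by
  obtain ⟨p₀, c, hp₀, hc, hne, hpos⟩ := exists_pole hF hr
  by_cases hbad : F (-p₀) = c
  swap
  · exact ⟨p₀, c, hp₀, hc, hne, hbad, hpos⟩
  obtain ⟨u, hu, hup⟩ := hdim p₀
  have hpu : ⟪p₀, u⟫ = 0 := by rw [real_inner_comm]; exact hup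
  set x : ℕ → V := fun n => p₀ + ((n : ℝ) + 1) • u with hx
  have hxp : ∀ n, ⟪x n, p₀⟫ = 1 := by
    intro n
    rw [hx]
    simp only [inner_add_left, inner_smul_left, real_inner_self_eq_norm_sq, hp₀, hup]
    simp
  have hxu : ∀ n, ⟪x n, u⟫ = (n : ℝ) + 1 := by
    intro n
    rw [hx]
    simp only [inner_add_left, inner_smul_left, real_inner_self_eq_norm_sq, hu, hpu]
    simp
  have hx0 : ∀ n, x n ≠ 0 := by
    intro n h
    have := hxp n
    rw [h, inner_zero_left] at this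
    exact zero_ne_one this
  -- some `n` with `F (-x n) ≠ ‖x n‖ • c`
  have hex : ∃ n, F (-(x n)) ≠ ‖x n‖ • c := by
    by_contra hcon
    push Not at hcon
    obtain ⟨_, 𝒜, h𝒜, hFA⟩ := hF
    choose A hA hAx using fun n => hFA (-(x n))
    have : Finite 𝒜 := h𝒜
    obtain ⟨m, n, hmn, hAmn⟩ := Finite.exists_ne_map_eq_of_infinite (fun n => (⟨A n, hA n⟩ : 𝒜))
    have hAmn' : A m = A n := congrArg Subtype.val hAmn
    have e1 : A m (-(x m)) = ‖x m‖ • c := by rw [← hAx, hcon]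
    have e2 : A m (-(x n)) = ‖x n‖ • c := by rw [hAmn', ← hAx, hcon]
    have e3 : A m (‖x n‖ • (x m)) = A m (‖x m‖ • (x n)) := by
      rw [map_neg] at e1 e2
      rw [map_smul, map_smul, ← neg_inj, ← smul_neg, ← smul_neg, e1, e2, smul_smul, smul_smul,
        mul_comm]
    have e4 := (A m).injective e3
    have e5 : ‖x n‖ = ‖x m‖ := by
      have := congrArg (fun z => ⟪z, p₀⟫) e4
      simp only [inner_smul_left, hxp, conj_trivial, mul_one] at this
      exact this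
    have e6 : (m : ℝ) = n := by
      have := congrArg (fun z => ⟪z, u⟫) e4
      simp only [inner_smul_left, hxu, conj_trivial, e5] at this
      have h7 := mul_left_cancel₀ (norm_ne_zero_iff.mpr (hx0 m)) this
      linarith
    exact hmn (by exact_mod_cast e6)
  obtain ⟨n, hn⟩ := hex
  have hxn : ‖x n‖ ≠ 0 := norm_ne_zero_iff.mpr (hx0 n)
  have hinv : 0 ≤ ‖x n‖⁻¹ := by positivity
  set p : V := ‖x n‖⁻¹ • x n with hp
  have hpn : ‖p‖ = 1 := by rw [hp, norm_smul, norm_inv, norm_norm, inv_mul_cancel₀ hxn]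
  have hFnp : F (-p) = ‖x n‖⁻¹ • F (-(x n)) := by rw [hp, ← smul_neg, hF.smul_nonneg hinv]
  have hpp : ⟪p, p₀⟫ = ‖x n‖⁻¹ := by rw [hp, inner_smul_left, hxp]; simp
  refine ⟨p, c, hpn, hc, ?_, ?_, hpos⟩
  · intro h
    have h1 : ⟪F p + F (-p), c⟫ = 0 := by rw [h]; simp
    rw [inner_add_left] at h1
    have h2 := hpos p
    have h3 : 0 < ⟪F (-p), c⟫ := by
      rw [← hbad]
      have h4 := hF.inner_le (-p) (-p₀)
      rw [inner_neg_neg, hpp] at h4
      have : 0 < ‖x n‖⁻¹ := by positivity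
      linarith
    linarith
  · rw [hFnp]
    intro h
    apply hn
    rw [← h, smul_smul, mul_inv_cancel₀ hxn, one_smul]

end

/-! ### Suspensions -/

section

variable {V W : Type*} [NormedAddCommGroup V] [InnerProductSpace ℝ V]
  [NormedAddCommGroup W] [InnerProductSpace ℝ W]

/-- Orthogonal projection to `p^⊥`. -/
noncomputable def prj (p : V) (hp : ‖p‖ = 1) (x : V) : (ℝ ∙ p)ᗮ :=
  ⟨x - ⟪p, x⟫ • p, by
    rw [Submodule.mem_orthogonal_singleton_iff_inner_right, inner_sub_right, inner_smul_right,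
      real_inner_self_eq_norm_sq, hp]
    ring⟩

lemma prj_coe (p : V) (hp : ‖p‖ = 1) (x : V) : (prj p hp x : V) = x - ⟪p, x⟫ • p := rfl

lemma inner_coe (p : V) (y : (ℝ ∙ p)ᗮ) : ⟪p, (y : V)⟫ = 0 :=
  Submodule.mem_orthogonal_singleton_iff_inner_right.mp y.2

lemma inner_coe' (p : V) (y : (ℝ ∙ p)ᗮ) : ⟪(y : V), p⟫ = 0 :=
  Submodule.mem_orthogonal_singleton_iff_inner_left.mp y.2

lemma norm_prj (p : V) (hp : ‖p‖ = 1) (x : V) : ‖x‖ ^ 2 = ‖prj p hp x‖ ^ 2 + ⟪p, x⟫ ^ 2 := by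
  have h1 : x = (prj p hp x : V) + ⟪p, x⟫ • p := by rw [prj_coe]; abel
  have h2 : ‖x‖ ^ 2 = ‖(prj p hp x : V) + ⟪p, x⟫ • p‖ ^ 2 := by rw [← h1]
  rw [h2, norm_add_sq_real, inner_smul_right, inner_coe', norm_smul, hp, mul_one,
    Real.norm_eq_abs, sq_abs]
  simp

lemma continuous_prj (p : V) (hp : ‖p‖ = 1) : Continuous (prj p hp) :=
  Continuous.subtype_mk (by fun_prop) _

/-- The suspension of a linear isometry. -/
noncomputable def liftIso {p : V} {q : W} (hp : ‖p‖ = 1) (hq : ‖q‖ = 1)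
    (A : (ℝ ∙ p)ᗮ →ₗᵢ[ℝ] (ℝ ∙ q)ᗮ) (e : ℝ) (he : e ^ 2 = 1) : V →ₗᵢ[ℝ] W where
  toFun x := (A (prj p hp x) : W) + (e * ⟪p, x⟫) • q
  map_add' x y := by
    have : prj p hp (x + y) = prj p hp x + prj p hp y := by
      apply Subtype.ext
      simp only [Submodule.coe_add, prj_coe, inner_add_right, add_smul]
      abel
    rw [this, map_add, inner_add_right, mul_add, add_smul, Submodule.coe_add]
    abel
  map_smul' r x := by
    have : prj p hp (r • x) = r • prj p hp x := by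
      apply Subtype.ext
      simp only [Submodule.coe_smul, prj_coe, inner_smul_right, smul_sub, smul_smul]
    rw [this, map_smul, inner_smul_right, RingHom.id_apply, smul_add, Submodule.coe_smul, smul_smul]
    congr 2
    ring
  norm_map' x := by
    have h1 : ‖(A (prj p hp x) : W) + (e * ⟪p, x⟫) • q‖ ^ 2 = ‖x‖ ^ 2 := by
      have h2 : ‖(A (prj p hp x) : W)‖ = ‖prj p hp x‖ := A.norm_map _
      rw [norm_prj p hp x, norm_add_sq_real, inner_smul_right, inner_coe',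
        norm_smul, hq, mul_one, Real.norm_eq_abs, sq_abs, h2, mul_pow, he]
      simp
    exact (sq_eq_sq₀ (norm_nonneg _) (norm_nonneg _)).mp h1

lemma liftIso_apply {p : V} {q : W} (hp : ‖p‖ = 1) (hq : ‖q‖ = 1)
    (A : (ℝ ∙ p)ᗮ →ₗᵢ[ℝ] (ℝ ∙ q)ᗮ) (e : ℝ) (he : e ^ 2 = 1) (x : V) :
    liftIso hp hq A e he x = (A (prj p hp x) : W) + (e * ⟪p, x⟫) • q := rfl

/-- The suspension of a folding. -/
noncomputable def susp {p : V} {q : W} (hp : ‖p‖ = 1) (sg : (ℝ ∙ p)ᗮ → (ℝ ∙ q)ᗮ) (x : V) : W :=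
  (sg (prj p hp x) : W) + |⟪p, x⟫| • q

lemma susp_eq {p : V} {q : W} (hp : ‖p‖ = 1) (hq : ‖q‖ = 1) {sg : (ℝ ∙ p)ᗮ → (ℝ ∙ q)ᗮ} {x : V}
    {A : (ℝ ∙ p)ᗮ →ₗᵢ[ℝ] (ℝ ∙ q)ᗮ} (hA : sg (prj p hp x) = A (prj p hp x)) :
    susp hp sg x = liftIso hp hq A 1 (by norm_num) x ∨
      susp hp sg x = liftIso hp hq A (-1) (by norm_num) x := by
  unfold susp
  rw [liftIso_apply, liftIso_apply, hA]
  rcases le_total 0 ⟪p, x⟫ with h | h
  · left; rw [abs_of_nonneg h, one_mul]
  · right; rw [abs_of_nonpos h]; congr 2; ring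

lemma isFold_susp {p : V} {q : W} (hp : ‖p‖ = 1) (hq : ‖q‖ = 1) {sg : (ℝ ∙ p)ᗮ → (ℝ ∙ q)ᗮ}
    (hsg : IsFold sg) : IsFold (susp (q := q) hp sg) := by
  have hc := hsg.cont
  obtain ⟨_, 𝒜, h𝒜, hA⟩ := hsg
  refine ⟨?_, (fun A => liftIso hp hq A 1 (by norm_num)) '' 𝒜 ∪
    (fun A => liftIso hp hq A (-1) (by norm_num)) '' 𝒜, (h𝒜.image _).union (h𝒜.image _), ?_⟩
  · have h1 := continuous_prj p hp
    exact (continuous_subtype_val.comp (hc.comp h1)).add (by fun_prop)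
  · intro x
    obtain ⟨A, hA1, hA2⟩ := hA (prj p hp x)
    rcases susp_eq hp hq hA2 with h | h
    · exact ⟨_, Or.inl ⟨A, hA1, rfl⟩, h⟩
    · exact ⟨_, Or.inr ⟨A, hA1, rfl⟩, h⟩

lemma FH.susp {p : V} {q : W} (hp : ‖p‖ = 1) (hq : ‖q‖ = 1) {sg tu : (ℝ ∙ p)ᗮ → (ℝ ∙ q)ᗮ}
    (h : FH sg tu) : FH (susp (q := q) hp sg) (susp (q := q) hp tu) := by
  obtain ⟨H, hc, h0, h1, hf⟩ := h
  refine ⟨fun y => Fold.susp (q := q) hp (fun z => H (y.1, z)) y.2, ?_, ?_, ?_, ?_⟩
  · have h1 := continuous_prj p hp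
    have h2 : Continuous (fun y : I × V => H (y.1, prj p hp y.2)) :=
      hc.comp (continuous_fst.prodMk (h1.comp continuous_snd))
    exact (continuous_subtype_val.comp h2).add (by fun_prop)
  · intro x; simp only [Fold.susp, h0]
  · intro x; simp only [Fold.susp, h1]
  · intro t
    exact isFold_susp hp hq (hf t)

lemma prj_gfold (p : V) (hp : ‖p‖ = 1) (x : V) : prj p hp (gfold p x) = prj p hp x := by
  apply Subtype.ext
  rw [prj_coe, prj_coe]
  unfold gfold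
  rw [inner_add_right, inner_smul_right, real_inner_self_eq_norm_sq, hp, add_smul, sub_smul]
  have : (|⟪p, x⟫| - ⟪p, x⟫) * 1 ^ 2 = |⟪p, x⟫| - ⟪p, x⟫ := by ring
  rw [this, sub_smul]
  abel

lemma inner_gfold (p : V) (hp : ‖p‖ = 1) (x : V) : ⟪p, gfold p x⟫ = |⟪p, x⟫| := by
  unfold gfold
  rw [inner_add_right, inner_smul_right, real_inner_self_eq_norm_sq, hp]; ring

lemma susp_iso {p : V} {q : W} (hp : ‖p‖ = 1) (hq : ‖q‖ = 1) (A : (ℝ ∙ p)ᗮ →ₗᵢ[ℝ] (ℝ ∙ q)ᗮ) :
    susp (q := q) hp A = liftIso hp hq A 1 (by norm_num) ∘ gfold p := by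
  funext x
  show _ = liftIso hp hq A 1 (by norm_num) (gfold p x)
  rw [liftIso_apply, prj_gfold, inner_gfold p hp, one_mul]
  rfl

lemma susp_iso_gfold {p : V} {q : W} (hp : ‖p‖ = 1) (hq : ‖q‖ = 1)
    (A : (ℝ ∙ p)ᗮ →ₗᵢ[ℝ] (ℝ ∙ q)ᗮ) (v : (ℝ ∙ p)ᗮ) :
    susp (q := q) hp (A ∘ gfold v) =
      liftIso hp hq A 1 (by norm_num) ∘ (gfold (v : V) ∘ gfold p) := by
  funext x
  show _ = liftIso hp hq A 1 (by norm_num) (gfold (v : V) (gfold p x))
  have hvp : ⟪(v : V), p⟫ = 0 := by rw [real_inner_comm]; exact inner_coe p v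
  have h1 : ∀ z : V, ⟪v, prj p hp z⟫ = ⟪(v : V), z⟫ := by
    intro z
    rw [Submodule.coe_inner, prj_coe, inner_sub_right, inner_smul_right, hvp]; simp
  have h2 : ∀ z : V, prj p hp (gfold (v : V) z) = gfold v (prj p hp z) := by
    intro z
    apply Subtype.ext
    rw [prj_coe]
    unfold gfold
    rw [h1, Submodule.coe_add, Submodule.coe_smul, prj_coe, inner_add_right, inner_smul_right,
      inner_coe]
    simp only [mul_zero, add_zero]
    abel
  have h3 : ∀ z : V, ⟪p, gfold (v : V) z⟫ = ⟪p, z⟫ := by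
    intro z
    unfold gfold
    rw [inner_add_right, inner_smul_right, inner_coe]; simp
  rw [liftIso_apply, h2, prj_gfold, h3, inner_gfold p hp, one_mul]
  rfl

end

/-- Restriction of the pieces of a folding which is linear in direction `p`. -/
lemma isFold_restrict {V W : Type*} [NormedAddCommGroup V] [InnerProductSpace ℝ V]
    [NormedAddCommGroup W] [InnerProductSpace ℝ W] {F₁ : V → W} (hF : IsFold F₁) {p : V}
    (hp : ‖p‖ = 1) {q : W} (hq : ‖q‖ = 1)
    (hlin : ∀ y, ⟪y, p⟫ = 0 → ∀ r : ℝ, 0 ≤ r → F₁ (y + r • p) = F₁ y + r • q)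
    (hmem : ∀ y : (ℝ ∙ p)ᗮ, F₁ y ∈ (ℝ ∙ q)ᗮ) :
    IsFold (fun y : (ℝ ∙ p)ᗮ => (⟨F₁ y, hmem y⟩ : (ℝ ∙ q)ᗮ)) := by
  have hc := hF.cont
  obtain ⟨_, 𝒜, h𝒜, hFA⟩ := hF
  refine ⟨Continuous.subtype_mk (hc.comp continuous_subtype_val) _,
    {B | ∃ A ∈ 𝒜, ∀ y, (B y : W) = A y}, ?_, ?_⟩
  · have : {B : (ℝ ∙ p)ᗮ →ₗᵢ[ℝ] (ℝ ∙ q)ᗮ | ∃ A ∈ 𝒜, ∀ y, (B y : W) = A y} =
        ⋃ A ∈ 𝒜, {B : (ℝ ∙ p)ᗮ →ₗᵢ[ℝ] (ℝ ∙ q)ᗮ | ∀ y : (ℝ ∙ p)ᗮ, (B y : W) = A y} := by
      ext B; simp
    rw [this]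
    refine h𝒜.biUnion fun A _ => Set.Subsingleton.finite ?_
    intro B hB B' hB'
    simp only [mem_ofPred_eq] at hB hB'
    ext y
    rw [hB y, hB' y]
  · intro y
    -- pigeonhole over `r = 0, 1, 2, ...`
    choose A hA hAx using fun n : ℕ => hFA ((y : V) + (n : ℝ) • p)
    have : Finite 𝒜 := h𝒜
    obtain ⟨m, n, hmn, hAmn⟩ := Finite.exists_ne_map_eq_of_infinite (fun n => (⟨A n, hA n⟩ : 𝒜))
    have hAmn' : A m = A n := congrArg Subtype.val hAmn
    have hy : ⟪(y : V), p⟫ = 0 := inner_coe' p y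
    have e1 : F₁ y + (m : ℝ) • q = A m y + (m : ℝ) • A m p := by
      rw [← hlin y hy m (by positivity), hAx, map_add, map_smul]
    have e2 : F₁ y + (n : ℝ) • q = A m y + (n : ℝ) • A m p := by
      rw [← hlin y hy n (by positivity), hAx, hAmn', map_add, map_smul]
    have e3 : ((m : ℝ) - n) • q = ((m : ℝ) - n) • A m p := by
      have := congrArg₂ (· - ·) e1 e2
      simp only [add_sub_add_left_eq_sub] at this
      rw [sub_smul, sub_smul]; exact this
    have hmn' : (m : ℝ) - n ≠ 0 := sub_ne_zero.mpr (by exact_mod_cast hmn)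
    have hAp : q = A m p := smul_right_injective W hmn' e3
    have hAy : F₁ y = A m y := by
      rw [← hAp] at e1
      exact add_right_cancel e1
    -- restrict `A m`
    have hmaps : ∀ z : (ℝ ∙ p)ᗮ, A m z ∈ (ℝ ∙ q)ᗮ := by
      intro z
      rw [Submodule.mem_orthogonal_singleton_iff_inner_right, hAp, (A m).inner_map_map]
      exact inner_coe p z
    refine ⟨{ toLinearMap := ((A m).toLinearMap.comp (Submodule.subtype _)).codRestrict _ hmaps,
              norm_map' := fun z => (A m).norm_map z }, ⟨A m, hA m, fun z => rfl⟩, ?_⟩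
    exact Subtype.ext hAy

/-- In a space of dimension at least two there are unit vectors orthogonal to any vector. -/
lemma exists_orth {V : Type*} [NormedAddCommGroup V] [InnerProductSpace ℝ V]
    [FiniteDimensional ℝ V] (h : 2 ≤ finrank ℝ V) (p : V) : ∃ u : V, ‖u‖ = 1 ∧ ⟪u, p⟫ = 0 := by
  have h1 : finrank ℝ (ℝ ∙ p) + finrank ℝ (ℝ ∙ p)ᗮ = finrank ℝ V :=
    Submodule.finrank_add_finrank_orthogonal _
  have h2 : finrank ℝ (ℝ ∙ p) ≤ 1 := finrank_span_le_card _ |>.trans (by simp)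
  have h3 : 0 < finrank ℝ (ℝ ∙ p)ᗮ := by omega
  have : Nontrivial (ℝ ∙ p)ᗮ := finrank_pos_iff.mp h3
  obtain ⟨u, hu⟩ := exists_ne (0 : (ℝ ∙ p)ᗮ)
  have hun : ‖(u : V)‖ ≠ 0 := by
    rw [norm_ne_zero_iff]; simpa using hu
  refine ⟨‖(u : V)‖⁻¹ • (u : V), ?_, ?_⟩
  · rw [norm_smul, norm_inv, norm_norm, inv_mul_cancel₀ hun]
  · rw [inner_smul_left, inner_coe', mul_zero]

universe u

/-- **Classification**: each linear folding between spaces of equal dimension is a linear isometry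
or is homotopic through foldings to a linear isometry composed with a standard fold. -/
theorem classify : ∀ (n : ℕ) (V W : Type u) [NormedAddCommGroup V] [InnerProductSpace ℝ V]
    [FiniteDimensional ℝ V] [NormedAddCommGroup W] [InnerProductSpace ℝ W]
    [FiniteDimensional ℝ W], finrank ℝ V = n → finrank ℝ W = n → ∀ F : V → W, IsFold F →
      (∃ A : V →ₗᵢ[ℝ] W, F = A) ∨
        ∃ (A : V →ₗᵢ[ℝ] W) (v : V), ‖v‖ = 1 ∧ FH F (A ∘ gfold v) := by
  intro n
  induction n with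
  | zero =>
    intro V W _ _ _ _ _ _ hV hW F hF
    left
    have hsub : Subsingleton V := finrank_zero_iff.mp hV
    obtain ⟨_, 𝒜, _, hFA⟩ := hF
    obtain ⟨A, _, hA⟩ := hFA 0
    refine ⟨A, funext fun x => ?_⟩
    rw [Subsingleton.elim x 0, hA]
  | succ k ih =>
    intro V W _ _ _ _ _ _ hV hW F hF
    by_cases hr : ∃ A : V →ₗᵢ[ℝ] W, F = A
    · left; exact hr
    right
    rcases Nat.eq_zero_or_pos k with hk | hk
    · -- dimension one
      subst hk
      obtain ⟨p, c, hp, hc, hne, hpos⟩ := exists_pole hF hr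
      have hp0 : p ≠ 0 := by rintro rfl; simp at hp
      have hFp : ‖F p‖ = 1 := by rw [hF.norm_map, hp]
      have hFnp : ‖F (-p)‖ = 1 := by rw [hF.norm_map, norm_neg, hp]
      have hFp0 : F p ≠ 0 := by intro h; rw [h, norm_zero] at hFp; exact zero_ne_one hFp
      have heq : F (-p) = F p := by
        obtain ⟨d, hd⟩ := (finrank_eq_one_iff_of_nonzero' (F p) hFp0).mp hW (F (-p))
        have h1 : |d| = 1 := by
          have := congrArg norm hd
          rwa [norm_smul, hFp, hFnp, mul_one, Real.norm_eq_abs] at this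
        rcases (abs_eq zero_le_one).mp h1 with h2 | h2
        · rw [← hd, h2, one_smul]
        · exfalso; apply hne; rw [← hd, h2, neg_one_smul, neg_neg]
      obtain ⟨_, 𝒜, _, hFA⟩ := id hF
      obtain ⟨A, _, hA⟩ := hFA p
      refine ⟨A, p, hp, ?_⟩
      have : F = A ∘ gfold p := by
        funext x
        obtain ⟨r, hr⟩ := (finrank_eq_one_iff_of_nonzero' p hp0).mp hV x
        have h1 : gfold p x = |r| • p := by
          unfold gfold
          rw [← hr, inner_smul_right, real_inner_self_eq_norm_sq, hp, ← add_smul]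
          congr 1
          norm_num
        show F x = A (gfold p x)
        rw [h1, map_smul, ← hA, ← hr]
        rcases le_total 0 r with h | h
        · rw [abs_of_nonneg h, hF.smul_nonneg h]
        · have h2 : r • p = (-r) • (-p) := by simp
          rw [h2, hF.smul_nonneg (by linarith), heq, abs_of_nonpos h]
      rw [this]
      exact FH.refl ((IsFold.of_isometry A).comp (isFold_gfold hp))
    · -- dimension at least two
      have hdim2 : 2 ≤ finrank ℝ V := by omega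
      have hrank : 1 < Module.rank ℝ V := by
        rw [← finrank_eq_rank]
        exact_mod_cast hdim2
      obtain ⟨p, c, hp, hc, hne, hnc, hpos⟩ := exists_good_pole hF hr (exists_orth hdim2)
      obtain ⟨F₁, hFF₁, hF₁p, hlin⟩ := stage_one hF hp hc hpos hne hnc
      have hF₁ := hFF₁.right
      set q : W := -c with hq
      have hqn : ‖q‖ = 1 := by rw [hq, norm_neg, hc]
      have h₁ : F₁ (-p) ≠ -q := by rw [hF₁p, hq, neg_neg]; exact hnc
      obtain ⟨horth, F₂, hF₁F₂, hF₂⟩ := stage_two hF₁ hp hqn h₁ hlin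
      have hmem : ∀ y : (ℝ ∙ p)ᗮ, F₁ y ∈ (ℝ ∙ q)ᗮ := by
        intro y
        rw [Submodule.mem_orthogonal_singleton_iff_inner_left]
        exact horth y (inner_coe' p y)
      have hsg := isFold_restrict hF₁ hp hqn hlin hmem
      set sg : (ℝ ∙ p)ᗮ → (ℝ ∙ q)ᗮ := fun y => ⟨F₁ y, hmem y⟩ with hsgdef
      have hF₂s : F₂ = susp (q := q) hp sg := by
        funext x
        have h1 : x = (prj p hp x : V) + ⟪p, x⟫ • p := by rw [prj_coe]; abel
        have h2 := hF₂ (prj p hp x) (inner_coe' p _) ⟪p, x⟫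
        rw [← h1] at h2
        exact h2
      have hp0 : p ≠ 0 := by rintro rfl; simp at hp
      have hq0 : q ≠ 0 := by intro h; rw [h, norm_zero] at hqn; exact zero_ne_one hqn
      have hfV : Fact (finrank ℝ V = k + 1) := ⟨hV⟩
      have hfW : Fact (finrank ℝ W = k + 1) := ⟨hW⟩
      have hd1 : finrank ℝ (ℝ ∙ p)ᗮ = k := Submodule.finrank_orthogonal_span_singleton hp0
      have hd2 : finrank ℝ (ℝ ∙ q)ᗮ = k := Submodule.finrank_orthogonal_span_singleton hq0
      have hFF₂ : FH F (susp (q := q) hp sg) := by rw [← hF₂s]; exact hFF₁.trans hF₁F₂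
      rcases ih (ℝ ∙ p)ᗮ (ℝ ∙ q)ᗮ hd1 hd2 sg hsg with ⟨A, hA⟩ | ⟨A, v, hv, hA⟩
      · refine ⟨liftIso hp hqn A 1 (by norm_num), p, hp, ?_⟩
        rw [← susp_iso hp hqn A, ← hA]
        exact hFF₂
      · refine ⟨liftIso hp hqn A 1 (by norm_num), p, hp, ?_⟩
        have hvn : ‖(v : V)‖ = 1 := hv
        have h1 := hA.susp hp hqn
        rw [susp_iso_gfold hp hqn A v] at h1
        have h2 : FH (gfold (v : V) ∘ gfold p) (gfold p ∘ gfold p) :=
          gfold_homotopic hrank hvn hp (isFold_gfold hp)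
        rw [gfold_gfold hp] at h2
        exact (hFF₂.trans h1).trans (h2.comp_left (IsFold.of_isometry _))

/-- **Main theorem, linear version.** -/
theorem main_linear {V : Type u} [NormedAddCommGroup V] [InnerProductSpace ℝ V]
    [FiniteDimensional ℝ V] (h2 : 2 ≤ finrank ℝ V) {F G : V → V} (hF : IsFold F) (hG : IsFold G)
    (hF' : ¬ ∃ A : V →ₗᵢ[ℝ] V, F = A) (hG' : ¬ ∃ A : V →ₗᵢ[ℝ] V, G = A) : FH F G := by
  have hrank : 1 < Module.rank ℝ V := by
    rw [← finrank_eq_rank]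
    exact_mod_cast h2
  have key : ∀ F : V → V, IsFold F → (¬ ∃ A : V →ₗᵢ[ℝ] V, F = A) →
      ∃ v : V, ‖v‖ = 1 ∧ FH F (gfold v) := by
    intro F hF hF'
    rcases classify _ V V rfl rfl F hF with h | ⟨A, v, hv, h⟩
    · exact absurd h hF'
    · exact ⟨v, hv, h.trans (isometry_homotopic hrank hv A)⟩
  obtain ⟨v, hv, h1⟩ := key F hF hF'
  obtain ⟨w, hw, h3⟩ := key G hG hG'
  have h4 : FH (gfold v ∘ id) (gfold w ∘ id) :=
    gfold_homotopic hrank hv hw (IsFold.of_isometry (LinearIsometry.id : V →ₗᵢ[ℝ] V))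
  exact (h1.trans h4).trans h3.symm

end Pool.Agent.Fold
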