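import Mathlib

/-!
# Isometric foldings of round spheres: definitions

`V` is a real inner product space and the sphere is its unit sphere `Metric.sphere (0 : V) 1`; if
`V` has dimension `m + 1`, this is the round unit sphere `S^m`.
-/

set_option autoImplicit false

namespace Pool.Agent.Fold

open Set
open scoped RealInnerProductSpace

/-- `γ` restricted to `[a, b]` is a geodesic of the unit sphere of `V`, that is, a great circle arc
run through with constant speed `c ≥ 0` (a constant path if `c = 0`). -/
structure GeodesicOn {V : Type*} [NormedAddCommGroup V] [InnerProductSpace ℝ V]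
    (γ : ℝ → Metric.sphere (0 : V) 1) (a b : ℝ) : Prop where
  exists_arc : ∃ (c : ℝ) (u v : V), 0 ≤ c ∧ ‖u‖ = 1 ∧ ‖v‖ = 1 ∧ ⟪u, v⟫ = 0 ∧
    ∀ t ∈ Icc a b, (γ t : V) = Real.cos (c * t) • u + Real.sin (c * t) • v

/-- `γ` restricted to `[a, b]` is a piecewise geodesic path: there is a finite subdivision
`a = t 0 ≤ t 1 ≤ ... ≤ t k = b` such that `γ` is a geodesic on each `[t i, t (i + 1)]`. -/
structure PiecewiseGeodesicOn {V : Type*} [NormedAddCommGroup V] [InnerProductSpace ℝ V]
    (γ : ℝ → Metric.sphere (0 : V) 1) (a b : ℝ) : Prop where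
  exists_subdivision : ∃ (k : ℕ) (t : ℕ → ℝ), t 0 = a ∧ t k = b ∧
    ∀ i < k, t i ≤ t (i + 1) ∧ GeodesicOn γ (t i) (t (i + 1))

/-- A continuous self-map of the unit sphere is an isometric folding if it carries each piecewise
geodesic path to a piecewise geodesic path of the same length. The length of a path on `[a, b]` is
its total variation. -/
structure IsIsometricFolding {V : Type*} [NormedAddCommGroup V] [InnerProductSpace ℝ V]
    (f : C(Metric.sphere (0 : V) 1, Metric.sphere (0 : V) 1)) : Prop where
  piecewiseGeodesic : ∀ (a b : ℝ) (γ : ℝ → Metric.sphere (0 : V) 1),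
    a ≤ b → PiecewiseGeodesicOn γ a b → PiecewiseGeodesicOn (fun t => f (γ t)) a b
  length_eq : ∀ (a b : ℝ) (γ : ℝ → Metric.sphere (0 : V) 1),
    a ≤ b → PiecewiseGeodesicOn γ a b →
      eVariationOn (fun t => f (γ t)) (Icc a b) = eVariationOn γ (Icc a b)

end Pool.Agent.Fold
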