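import Pool.Agent.Lib_MP_9d9d56_gt.Sphere
import Pool.Agent.Lib_MP_9d9d56_gt.Classify

/-!
# From isometric foldings of the sphere to linear foldings, and the final theorem
-/

set_option autoImplicit false

namespace Pool.Agent.Fold

open Set Filter Topology
open scoped RealInnerProductSpace

universe u

variable {V : Type u} [NormedAddCommGroup V] [InnerProductSpace ℝ V]

/-- Normalisation of a non-zero vector. -/
noncomputable def normz (x : V) (hx : x ≠ 0) : Sph V :=
  ⟨‖x‖⁻¹ • x, by
    rw [mem_sphere_zero_iff_norm, norm_smul, norm_inv, norm_norm,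
      inv_mul_cancel₀ (norm_ne_zero_iff.mpr hx)]⟩

open Classical in
/-- The homogeneous extension. -/
noncomputable def hext (f : C(Sph V, Sph V)) (x : V) : V :=
  if hx : x = 0 then 0 else ‖x‖ • (f (normz x hx) : V)

lemma hext_zero (f : C(Sph V, Sph V)) : hext f 0 = 0 := by
  unfold hext; rw [dif_pos rfl]

lemma hext_ne (f : C(Sph V, Sph V)) {x : V} (hx : x ≠ 0) :
    hext f x = ‖x‖ • (f (normz x hx) : V) := by
  unfold hext; rw [dif_neg hx]

lemma norm_sph (x : Sph V) : ‖(x : V)‖ = 1 := by
  have := x.2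
  rwa [mem_sphere_zero_iff_norm] at this

lemma sph_ne (x : Sph V) : (x : V) ≠ 0 := by
  intro h
  have := norm_sph x
  rw [h, norm_zero] at this
  exact zero_ne_one this

lemma hext_norm (f : C(Sph V, Sph V)) (x : V) : ‖hext f x‖ = ‖x‖ := by
  by_cases hx : x = 0
  · rw [hx, hext_zero]
  · rw [hext_ne f hx, norm_smul, norm_norm, norm_sph, mul_one]

lemma hext_smul (f : C(Sph V, Sph V)) (t : ℝ) (x : V) (ht : 0 ≤ t) :
    hext f (t • x) = t • hext f x := by
  by_cases hx : x = 0
  · rw [hx, smul_zero, hext_zero, smul_zero]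
  rcases eq_or_lt_of_le ht with h0 | h0
  · rw [← h0, zero_smul, zero_smul, hext_zero]
  have htx : t • x ≠ 0 := smul_ne_zero h0.ne' hx
  rw [hext_ne f hx, hext_ne f htx]
  have : normz (t • x) htx = normz x hx := by
    apply Subtype.ext
    show ‖t • x‖⁻¹ • t • x = ‖x‖⁻¹ • x
    rw [norm_smul, Real.norm_of_nonneg ht, smul_smul, mul_inv, mul_right_comm,
      inv_mul_cancel₀ h0.ne', one_mul]
  rw [this, norm_smul, Real.norm_of_nonneg ht, smul_smul]

lemma hext_sph (f : C(Sph V, Sph V)) (x : Sph V) : hext f x = f x := by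
  rw [hext_ne f (sph_ne x), norm_sph, one_smul]
  have : normz (x : V) (sph_ne x) = x := by
    apply Subtype.ext
    show ‖(x : V)‖⁻¹ • (x : V) = x
    rw [norm_sph, inv_one, one_smul]
  rw [this]

lemma continuous_hext (f : C(Sph V, Sph V)) : Continuous (hext f) := by
  rw [continuous_iff_continuousAt]
  intro x
  by_cases hx : x = 0
  · subst hx
    unfold ContinuousAt
    rw [hext_zero, tendsto_zero_iff_norm_tendsto_zero]
    have : (fun x => ‖hext f x‖) = fun x => ‖x‖ := funext fun x => hext_norm f x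
    rw [this]
    have h := (continuous_norm (E := V)).tendsto 0
    rwa [norm_zero] at h
  · have hopen : IsOpen {y : V | y ≠ 0} := isOpen_ne
    have hon : ContinuousOn (hext f) {y : V | y ≠ 0} := by
      rw [continuousOn_iff_continuous_domRestrict]
      have e : {y : V | y ≠ 0}.domRestrict (hext f) =
          fun y : {y : V | y ≠ 0} => ‖(y : V)‖ • (f (normz (y : V) y.2) : V) := by
        funext y
        exact hext_ne f y.2
      rw [e]
      have h1 : Continuous fun y : {y : V | y ≠ 0} => normz (y : V) y.2 := by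
        refine Continuous.subtype_mk ?_ _
        have h2 : Continuous fun y : {y : V | y ≠ 0} => ‖(y : V)‖ :=
          continuous_norm.comp continuous_subtype_val
        have h3 : Continuous fun y : {y : V | y ≠ 0} => ‖(y : V)‖⁻¹ :=
          h2.inv₀ fun y => norm_ne_zero_iff.mpr y.2
        exact h3.smul continuous_subtype_val
      have h2 : Continuous fun y : {y : V | y ≠ 0} => ‖(y : V)‖ :=
        continuous_norm.comp continuous_subtype_val
      exact h2.smul (continuous_subtype_val.comp (f.continuous.comp h1))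
    exact hon.continuousAt (hopen.mem_nhds hx)

/-- Straightness of a folding in a direction, in sector form. -/
lemma sector {f : C(Sph V, Sph V)} (hf : IsIsometricFolding f) {x e : V} (hx : ‖x‖ = 1)
    (he : ‖e‖ = 1) (hxe : ⟪x, e⟫ = 0) :
    ∃ s > (0 : ℝ), ∃ e' : V, ‖e'‖ = 1 ∧ ⟪hext f x, e'⟫ = 0 ∧ ∀ α β : ℝ, 0 < α → 0 ≤ β →
      β ≤ s * α → hext f (α • x + β • e) = α • hext f x + β • e' := by
  -- the geodesic
  let γ : ℝ → Sph V := fun t => ⟨arc 1 x e t, by
    rw [mem_sphere_zero_iff_norm, norm_arc hx he hxe]⟩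
  have hγ : ∀ a b, GeodesicOn γ a b := fun a b =>
    ⟨1, x, e, zero_le_one, hx, he, hxe, fun t _ => rfl⟩
  have hPG : ∀ b, 0 ≤ b → PiecewiseGeodesicOn γ 0 b := fun b hb =>
    PiecewiseGeodesicOn.single hb (hγ 0 b)
  -- first nontrivial piece of the image
  obtain ⟨k, t, h0, hk, ht⟩ := hf.piecewiseGeodesic 0 1 γ zero_le_one (hPG 1 zero_le_one)
  have hex : ∃ i, 0 < t i := ⟨k, by rw [hk]; exact one_pos⟩
  classical
  obtain ⟨δ, hδ, c, u, v, hc, hu, hv, huv, harc⟩ : ∃ δ > (0 : ℝ), ∃ (c : ℝ) (u v : V),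
      0 ≤ c ∧ ‖u‖ = 1 ∧ ‖v‖ = 1 ∧ ⟪u, v⟫ = 0 ∧
      ∀ s ∈ Icc 0 δ, (f (γ s) : V) = arc c u v s := by
    set i := Nat.find hex with hi
    have hi1 : 0 < t i := Nat.find_spec hex
    have hi0 : i ≠ 0 := by
      intro h; rw [h, h0] at hi1; exact lt_irrefl _ hi1
    obtain ⟨j, hj⟩ := Nat.exists_eq_succ_of_ne_zero hi0
    have hjk : j < k := by
      have : i ≤ k := Nat.find_min' hex (by rw [hk]; exact one_pos)
      omega
    have hj0 : t j ≤ 0 := by
      have := Nat.find_min hex (m := j) (by omega)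
      exact not_lt.mp this
    obtain ⟨_, c, u, v, hc, hu, hv, huv, harc⟩ := ht j hjk
    refine ⟨t i, hi1, c, u, v, hc, hu, hv, huv, fun s hs => ?_⟩
    refine harc s ⟨hj0.trans hs.1, ?_⟩
    have : t (j + 1) = t i := by rw [hj]
    rw [this]; exact hs.2
  -- the speed is one
  have hlen : ∀ h ∈ Ioc (0 : ℝ) δ, eVariationOn (fun t => f (γ t)) (Icc 0 h) =
      eVariationOn γ (Icc 0 h) := fun h hh => hf.length_eq 0 h γ hh.1.le (hPG h hh.1.le)
  have hup1 : ∀ h ∈ Ioc (0 : ℝ) δ, eVariationOn γ (Icc 0 h) ≤ ENNReal.ofReal (1 * h) := by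
    intro h hh
    have := eVar_le (f := γ) hh.1.le zero_le_one (fun a _ b _ => by
      rw [Subtype.dist_eq, dist_eq_norm]
      exact norm_arc_sub_le zero_le_one hx he hxe b a)
    rwa [sub_zero] at this
  have hup2 : ∀ h ∈ Ioc (0 : ℝ) δ, eVariationOn (fun t => f (γ t)) (Icc 0 h) ≤
      ENNReal.ofReal (c * h) := by
    intro h hh
    have := eVar_le (f := fun t => f (γ t)) hh.1.le hc (fun a ha b hb => by
      rw [Subtype.dist_eq, dist_eq_norm, harc a ⟨ha.1, ha.2.trans hh.2⟩,
        harc b ⟨hb.1, hb.2.trans hh.2⟩]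
      exact norm_arc_sub_le hc hu hv huv b a)
    rwa [sub_zero] at this
  have hlo1 : ∀ h ∈ Ioc (0 : ℝ) δ, ENNReal.ofReal (2 * |Real.sin (1 * h / 2)|) ≤
      eVariationOn γ (Icc 0 h) := by
    intro h hh
    have h1 := eVariationOn.edist_le γ (s := Icc 0 h) (right_mem_Icc.mpr hh.1.le)
      (left_mem_Icc.mpr hh.1.le)
    rw [edist_dist, Subtype.dist_eq, dist_eq_norm] at h1
    have h2 := norm_arc_sub (c := 1) hx he hxe 0 h
    rw [sub_zero] at h2
    rw [← h2]
    exact h1
  have hlo2 : ∀ h ∈ Ioc (0 : ℝ) δ, ENNReal.ofReal (2 * |Real.sin (c * h / 2)|) ≤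
      eVariationOn (fun t => f (γ t)) (Icc 0 h) := by
    intro h hh
    have h1 := eVariationOn.edist_le (fun t => f (γ t)) (s := Icc 0 h)
      (right_mem_Icc.mpr hh.1.le) (left_mem_Icc.mpr hh.1.le)
    rw [edist_dist, Subtype.dist_eq, dist_eq_norm, harc h ⟨hh.1.le, hh.2⟩,
      harc 0 ⟨le_rfl, hδ.le⟩] at h1
    have h2 := norm_arc_sub (c := c) hu hv huv 0 h
    rw [sub_zero] at h2
    rw [← h2]
    exact h1
  have hc1 : c ≤ 1 := by
    refine speed_le hδ fun h hh => ?_
    have h1 := (hlo2 h hh).trans ((hlen h hh).le.trans (hup1 h hh))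
    rw [ENNReal.ofReal_le_ofReal_iff (by linarith [hh.1])] at h1
    exact (mul_le_mul_of_nonneg_left (le_abs_self _) (by norm_num)).trans h1
  have hc2 : 1 ≤ c := by
    refine speed_le hδ fun h hh => ?_
    have h1 := (hlo1 h hh).trans ((hlen h hh).ge.trans (hup2 h hh))
    rw [ENNReal.ofReal_le_ofReal_iff (mul_nonneg hc hh.1.le)] at h1
    exact (mul_le_mul_of_nonneg_left (le_abs_self _) (by norm_num)).trans h1
  obtain rfl : c = 1 := le_antisymm hc1 hc2
  -- values
  have hval : ∀ s ∈ Icc (0 : ℝ) δ, hext f (arc 1 x e s) = arc 1 u v s := by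
    intro s hs
    have := hext_sph f (γ s)
    rw [harc s hs] at this
    exact this
  have hux : hext f x = u := by
    have := hval 0 ⟨le_rfl, hδ.le⟩
    simpa [arc] using this
  set δ' := min δ 1 with hδ'
  have hδ'0 : 0 < δ' := lt_min hδ one_pos
  have hδ'1 : δ' < Real.pi / 2 := by
    have : δ' ≤ 1 := min_le_right _ _
    linarith [Real.pi_gt_three]
  refine ⟨Real.tan δ', Real.tan_pos_of_pos_of_lt_pi_div_two hδ'0 hδ'1, v, hv, ?_, ?_⟩
  · rw [hux, huv]
  · intro α β hα hβ hαβ
    set y := β / α with hy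
    have hy0 : 0 ≤ y := by positivity
    have hy1 : y ≤ Real.tan δ' := by rw [hy, div_le_iff₀ hα]; exact hαβ
    have hsq : 0 < √(1 + y ^ 2) := Real.sqrt_pos.mpr (by positivity)
    have hθ : Real.arctan y ∈ Icc (0 : ℝ) δ := by
      refine ⟨Real.arctan_nonneg.mpr hy0, ?_⟩
      have h1 := Real.arctan_le_arctan_iff.mpr hy1
      rw [Real.arctan_tan (by linarith) hδ'1] at h1
      exact h1.trans (min_le_left _ _)
    have hβα : β = α * y := by rw [hy, mul_div_cancel₀ _ hα.ne']
    have key : ∀ a b : V, α • a + β • b = (α * √(1 + y ^ 2)) • arc 1 a b (Real.arctan y) := by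
      intro a b
      unfold arc
      rw [one_mul, Real.cos_arctan, Real.sin_arctan, smul_add, smul_smul, smul_smul]
      congr 2
      · field_simp
      · rw [hβα]; field_simp
    rw [key x e, hext_smul _ _ _ (by positivity), hval _ hθ, ← key u v, hux]

/-- The homogeneous extension of an isometric folding. -/
theorem pf_hext {f : C(Sph V, Sph V)} (hf : IsIsometricFolding f) : PF (hext f) where
  cont := continuous_hext f
  norm_map := hext_norm f
  homog := hext_smul f
  loc := by
    intro x w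
    by_cases hx : x = 0
    · refine ⟨1, one_pos, hext f w, hext_norm f w, fun t ht => ?_⟩
      rw [hx, zero_add, hext_zero, zero_add, hext_smul f t w ht.1]
    have hxn : 0 < ‖x‖ := norm_pos_iff.mpr hx
    set a := ‖x‖ with ha
    set x₀ := a⁻¹ • x with hx₀
    have hx₀n : ‖x₀‖ = 1 := by
      rw [hx₀, norm_smul, norm_inv, Real.norm_of_nonneg hxn.le, inv_mul_cancel₀ hxn.ne']
    have hxx₀ : x = a • x₀ := by rw [hx₀, smul_smul, mul_inv_cancel₀ hxn.ne', one_smul]
    have hx₀x₀ : ⟪x₀, x₀⟫ = 1 := by rw [real_inner_self_eq_norm_sq, hx₀n, one_pow]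
    set b := ⟪x₀, w⟫ with hb
    set z := w - b • x₀ with hz
    have hwz : w = b • x₀ + z := by rw [hz]; abel
    have hx₀z : ⟪x₀, z⟫ = 0 := by
      rw [hz, inner_sub_right, real_inner_smul_right, hx₀x₀, ← hb]; ring
    clear_value a x₀ b z
    have hFx : hext f x = a • hext f x₀ := by rw [hxx₀, hext_smul f _ _ hxn.le]
    have hsmall : ∀ t ∈ Icc (0 : ℝ) (a / (2 * (|b| + 1))), a / 2 ≤ a + t * b := by
      intro t ht
      have h1 : t * (2 * (|b| + 1)) ≤ a := by
        have := ht.2
        rwa [le_div_iff₀ (by positivity)] at this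
      have h2 : -(t * |b|) ≤ t * b := by
        have := neg_abs_le b
        nlinarith [ht.1]
      nlinarith [ht.1, abs_nonneg b]
    by_cases hz0 : z = 0
    · refine ⟨a / (2 * (|b| + 1)), by positivity, b • hext f x₀, ?_, fun t ht => ?_⟩
      · rw [norm_smul, hext_norm, hwz, hz0, add_zero, norm_smul]
      · have h1 := hsmall t ht
        have h2 : x + t • w = (a + t * b) • x₀ := by
          rw [hwz, hz0, hxx₀]; module
        rw [h2, hext_smul f _ _ (by linarith), hFx]
        module
    · have hzn : 0 < ‖z‖ := norm_pos_iff.mpr hz0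
      set d := ‖z‖ with hd
      set e := d⁻¹ • z with he
      have hen : ‖e‖ = 1 := by
        rw [he, norm_smul, norm_inv, Real.norm_of_nonneg hzn.le, inv_mul_cancel₀ hzn.ne']
      have hze : z = d • e := by rw [he, smul_smul, mul_inv_cancel₀ hzn.ne', one_smul]
      have hx₀e : ⟪x₀, e⟫ = 0 := by rw [he, real_inner_smul_right, hx₀z, mul_zero]
      clear_value d e
      obtain ⟨s, hs, e', he', horth, hsec⟩ := sector hf hx₀n hen hx₀e
      refine ⟨min (a / (2 * (|b| + 1))) (s * a / (2 * d)), lt_min (by positivity) (by positivity),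
        b • hext f x₀ + d • e', ?_, fun t ht => ?_⟩
      · have h1 : ‖b • hext f x₀ + d • e'‖ ^ 2 = ‖w‖ ^ 2 := by
          rw [hwz, hze, norm_add_sq_real, norm_add_sq_real, real_inner_smul_left,
            real_inner_smul_right, real_inner_smul_left, real_inner_smul_right, horth, hx₀e]
          simp only [norm_smul, hext_norm, he', hen]
        exact (sq_eq_sq₀ (norm_nonneg _) (norm_nonneg _)).mp h1
      · have h1 := hsmall t ⟨ht.1, ht.2.trans (min_le_left _ _)⟩
        have h2 : x + t • w = (a + t * b) • x₀ + (t * d) • e := by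
          rw [hwz, hze, hxx₀]; module
        have h3 : t * d ≤ s * (a + t * b) := by
          have h4 := ht.2.trans (min_le_right _ _)
          rw [le_div_iff₀ (by positivity)] at h4
          nlinarith
        rw [h2, hsec _ _ (by linarith) (mul_nonneg ht.1 hzn.le) h3, hFx]
        module

/-- **Main theorem.** Any two non-trivial isometric foldings of the sphere are homotopic through
isometric foldings. -/
theorem main_sphere [FiniteDimensional ℝ V] (h2 : 2 ≤ Module.finrank ℝ V) (f g : C(Sph V, Sph V)) (hf : IsIsometricFolding f)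
    (hg : IsIsometricFolding g) (hf' : ¬ Isometry f) (hg' : ¬ Isometry g) :
    ContinuousMap.HomotopicWith f g IsIsometricFolding := by
  have nontriv : ∀ h : C(Sph V, Sph V), ¬ Isometry h → ¬ ∃ A : V →ₗᵢ[ℝ] V, hext h = A := by
    rintro h hh ⟨A, hA⟩
    apply hh
    refine Isometry.of_dist_eq fun x y => ?_
    rw [Subtype.dist_eq, ← hext_sph, ← hext_sph, hA, A.isometry.dist_eq, Subtype.dist_eq]
  obtain ⟨H, hc, h0, h1, hH⟩ := main_linear h2 (pf_hext hf).isFold (pf_hext hg).isFold
    (nontriv f hf') (nontriv g hg')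
  have hmem : ∀ y : unitInterval × Sph V, H (y.1, (y.2 : V)) ∈
      Metric.sphere (0 : V) 1 := by
    intro y
    rw [mem_sphere_zero_iff_norm, (hH y.1).norm_map, norm_sph]
  refine ⟨{ toFun := fun y => ⟨H (y.1, (y.2 : V)), hmem y⟩
            continuous_toFun := Continuous.subtype_mk (by fun_prop) _
            map_zero_left := fun x => Subtype.ext ?_
            map_one_left := fun x => Subtype.ext ?_
            prop' := fun t => ?_ }⟩
  · show H (0, (x : V)) = f x
    rw [h0, hext_sph]
  · show H (1, (x : V)) = g x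
    rw [h1, hext_sph]
  · exact isIsometricFolding_of_isFold (hH t) fun x => rfl

end Pool.Agent.Fold
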