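import Pool.Agent.Lib_MP_9d9d56_gt.Surgery

/-!
# Homotopies through linear foldings
-/

set_option autoImplicit false

namespace Pool.Agent.Fold

open Set Filter Topology
open scoped RealInnerProductSpace unitInterval

variable {V W X : Type*} [NormedAddCommGroup V] [InnerProductSpace ℝ V]
  [NormedAddCommGroup W] [InnerProductSpace ℝ W] [NormedAddCommGroup X] [InnerProductSpace ℝ X]

/-- Homotopy through linear foldings. -/
def FH (F G : V → W) : Prop :=
  ∃ H : I × V → W, Continuous H ∧ (∀ x, H (0, x) = F x) ∧ (∀ x, H (1, x) = G x) ∧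
    ∀ t, IsFold fun x => H (t, x)

lemma FH.refl {F : V → W} (hF : IsFold F) : FH F F :=
  ⟨fun y => F y.2, hF.cont.comp continuous_snd, fun _ => rfl, fun _ => rfl, fun _ => hF⟩

lemma FH.left {F G : V → W} (h : FH F G) : IsFold F := by
  obtain ⟨H, _, h0, _, hf⟩ := h
  have : F = fun x => H (0, x) := funext fun x => (h0 x).symm
  rw [this]; exact hf 0

lemma FH.right {F G : V → W} (h : FH F G) : IsFold G := by
  obtain ⟨H, _, _, h1, hf⟩ := h
  have : G = fun x => H (1, x) := funext fun x => (h1 x).symm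
  rw [this]; exact hf 1

lemma FH.symm {F G : V → W} (h : FH F G) : FH G F := by
  obtain ⟨H, hc, h0, h1, hf⟩ := h
  exact ⟨fun y => H (unitInterval.symm y.1, y.2), by fun_prop, fun x => by simp [h1],
    fun x => by simp [h0], fun t => hf (unitInterval.symm t)⟩

lemma FH.trans {F G K : V → W} (h : FH F G) (h' : FH G K) : FH F K := by
  have hF := h.left
  have hG := h.right
  have hK := h'.right
  obtain ⟨H, hc, h0, h1, hf⟩ := h
  obtain ⟨H', hc', h0', h1', hf'⟩ := h'
  let f : C(V, W) := ⟨F, hF.cont⟩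
  let g : C(V, W) := ⟨G, hG.cont⟩
  let k : C(V, W) := ⟨K, hK.cont⟩
  let P : C(V, W) → Prop := fun φ => IsFold (φ : V → W)
  let A : ContinuousMap.HomotopyWith f g P :=
    { toFun := H
      continuous_toFun := hc
      map_zero_left := h0
      map_one_left := h1
      prop' := fun t => hf t }
  let B : ContinuousMap.HomotopyWith g k P :=
    { toFun := H'
      continuous_toFun := hc'
      map_zero_left := h0'
      map_one_left := h1'
      prop' := fun t => hf' t }
  let C := A.trans B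
  exact ⟨C, C.continuous, C.apply_zero, C.apply_one, fun t => C.prop t⟩

lemma FH.comp_left {F F' : V → W} {G : W → X} (hG : IsFold G) (h : FH F F') :
    FH (G ∘ F) (G ∘ F') := by
  obtain ⟨H, hc, h0, h1, hf⟩ := h
  exact ⟨fun y => G (H y), hG.cont.comp hc, fun x => by simp [h0], fun x => by simp [h1],
    fun t => hG.comp (hf t)⟩

lemma FH.comp_right {F : V → W} {G G' : W → X} (hF : IsFold F) (h : FH G G') :
    FH (G ∘ F) (G' ∘ F) := by
  obtain ⟨H, hc, h0, h1, hf⟩ := h
  exact ⟨fun y => H (y.1, F y.2), hc.comp (continuous_fst.prodMk (hF.cont.comp continuous_snd)),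
    fun x => by simp [h0], fun x => by simp [h1], fun t => (hf t).comp hF⟩

/-! ### The standard fold -/

/-- The fold of `V` along `v^⊥` onto the half space containing `v`. -/
def gfold (v : V) (x : V) : V := x + (|⟪v, x⟫| - ⟪v, x⟫) • v

/-- Reflection in `v^⊥` for a unit vector `v`. -/
noncomputable def refl (v : V) (hv : ‖v‖ = 1) : V →ₗᵢ[ℝ] V :=
  surgIso LinearIsometry.id v (-v) hv (by rw [norm_neg, hv])

lemma refl_apply (v : V) (hv : ‖v‖ = 1) (x : V) : refl v hv x = x - (2 * ⟪v, x⟫) • v := by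
  unfold refl
  rw [surgIso_apply]
  simp only [LinearIsometry.id_apply, inner_neg_right, inner_neg_left]
  rw [real_inner_self_eq_norm_sq, hv]
  have : (v - -v) = (2 : ℝ) • v := by rw [two_smul]; abel
  rw [this, smul_smul]
  congr 2
  ring

lemma gfold_eq (v : V) (hv : ‖v‖ = 1) (x : V) : gfold v x = x ∨ gfold v x = refl v hv x := by
  unfold gfold
  rw [refl_apply]
  rcases le_total 0 ⟪v, x⟫ with h | h
  · left; rw [abs_of_nonneg h]; simp
  · right; rw [abs_of_nonpos h, sub_eq_add_neg x, ← neg_smul]; congr 2; ring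

lemma continuous_gfold : Continuous fun y : V × V => gfold y.1 y.2 := by
  unfold gfold
  fun_prop

lemma isFold_gfold {v : V} (hv : ‖v‖ = 1) : IsFold (gfold v) := by
  refine ⟨?_, {LinearIsometry.id, refl v hv}, by simp, fun x => ?_⟩
  · unfold gfold; fun_prop
  · rcases gfold_eq v hv x with h | h
    · exact ⟨_, Or.inl rfl, by rw [h]; rfl⟩
    · exact ⟨_, Or.inr rfl, h⟩

lemma gfold_gfold {v : V} (hv : ‖v‖ = 1) : gfold v ∘ gfold v = gfold v := by
  funext x
  have h1 : ⟪v, gfold v x⟫ = |⟪v, x⟫| := by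
    unfold gfold
    rw [inner_add_right, inner_smul_right, real_inner_self_eq_norm_sq, hv]; ring
  show gfold v x + (|⟪v, gfold v x⟫| - ⟪v, gfold v x⟫) • v = gfold v x
  rw [h1, abs_abs, sub_self, zero_smul, add_zero]

lemma refl_gfold {v : V} (hv : ‖v‖ = 1) : refl v hv ∘ gfold v = gfold (-v) := by
  funext x
  have h1 : ⟪v, gfold v x⟫ = |⟪v, x⟫| := by
    unfold gfold
    rw [inner_add_right, inner_smul_right, real_inner_self_eq_norm_sq, hv]; ring
  show refl v hv (gfold v x) = gfold (-v) x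
  rw [refl_apply, h1]
  unfold gfold
  rw [inner_neg_left, abs_neg, smul_neg, ← sub_eq_add_neg, add_sub_assoc, sub_eq_add_neg x,
    ← sub_smul, ← neg_smul]
  congr 2
  ring

/-- Moving the folding hyperplane, `dim ≥ 2`. -/
lemma gfold_homotopic (h2 : 1 < Module.rank ℝ W) {v v' : W} (hv : ‖v‖ = 1) (hv' : ‖v'‖ = 1)
    {F : V → W} (hF : IsFold F) : FH (gfold v ∘ F) (gfold v' ∘ F) := by
  have hpc := isPathConnected_sphere (E := W) h2 0 (zero_le_one)
  obtain ⟨γ, hγ⟩ := hpc.joinedIn v (by simpa using hv) v' (by simpa using hv')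
  have hγ' : ∀ t, ‖γ t‖ = 1 := fun t => by simpa using hγ t
  refine ⟨fun y => gfold (γ y.1) (F y.2), ?_, fun x => by simp, fun x => by simp,
    fun t => (isFold_gfold (hγ' t)).comp hF⟩
  have hFc := hF.cont
  exact continuous_gfold.comp ((γ.continuous.comp continuous_fst).prodMk (hFc.comp continuous_snd))

/-- Reflections act trivially up to homotopy on `gfold v`. -/
lemma refl_homotopic (h2 : 1 < Module.rank ℝ V) {u v : V} (hu : ‖u‖ = 1) (hv : ‖v‖ = 1) :
    FH (refl u hu ∘ gfold v) (gfold v) := by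
  have hgv := isFold_gfold hv
  -- `gfold v = gfold v ∘ gfold v ~ gfold u ∘ gfold v`
  have h1 : FH (gfold v) (gfold u ∘ gfold v) := by
    have := gfold_homotopic h2 hv hu hgv
    rwa [gfold_gfold hv] at this
  have h3 : FH (refl u hu ∘ gfold v) (refl u hu ∘ (gfold u ∘ gfold v)) :=
    h1.comp_left (IsFold.of_isometry _)
  have h4 : refl u hu ∘ (gfold u ∘ gfold v) = gfold (-u) ∘ gfold v := by
    rw [← Function.comp_assoc, refl_gfold]
  rw [h4] at h3
  have h5 : FH (gfold (-u) ∘ gfold v) (gfold v ∘ gfold v) :=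
    gfold_homotopic h2 (by rw [norm_neg, hu]) hv hgv
  rw [gfold_gfold hv] at h5
  exact h3.trans h5

/-- The orthogonal group acts trivially up to homotopy on `gfold v`. -/
lemma isometry_homotopic [FiniteDimensional ℝ V] (h2 : 1 < Module.rank ℝ V) {v : V}
    (hv : ‖v‖ = 1) (A : V →ₗᵢ[ℝ] V) : FH (A ∘ gfold v) (gfold v) := by
  obtain ⟨l, -, hl⟩ := (A.toLinearIsometryEquiv rfl).reflections_generate_dim
  have hA : (A : V → V) = ((l.map fun v => ((ℝ ∙ v)ᗮ).reflection).prod : V ≃ₗᵢ[ℝ] V) := by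
    rw [← hl]; rfl
  rw [hA]
  clear hA hl
  induction l with
  | nil => exact FH.refl (isFold_gfold hv)
  | cons w l ih =>
    rw [List.map_cons, List.prod_cons]
    have hcomp : (⇑(((ℝ ∙ w)ᗮ).reflection * (l.map fun v => ((ℝ ∙ v)ᗮ).reflection).prod) ∘ gfold v) =
        ⇑(((ℝ ∙ w)ᗮ).reflection) ∘ (⇑(l.map fun v => ((ℝ ∙ v)ᗮ).reflection).prod ∘ gfold v) := rfl
    rw [hcomp]
    have h1 : FH (⇑(((ℝ ∙ w)ᗮ).reflection) ∘ (⇑(l.map fun v => ((ℝ ∙ v)ᗮ).reflection).prod ∘ gfold v))
        (⇑(((ℝ ∙ w)ᗮ).reflection) ∘ gfold v) :=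
      ih.comp_left (IsFold.of_isometry ((((ℝ ∙ w)ᗮ).reflection).toLinearIsometry))
    refine h1.trans ?_
    by_cases hw : w = 0
    · have : (⇑(((ℝ ∙ w)ᗮ).reflection) : V → V) = id := by
        funext x
        rw [Submodule.reflection_orthogonal_apply, Submodule.reflection_singleton_apply, hw]
        simp
      rw [this, Function.id_comp]
      exact FH.refl (isFold_gfold hv)
    · have hwn : ‖w‖ ≠ 0 := norm_ne_zero_iff.mpr hw
      set u : V := ‖w‖⁻¹ • w with hu
      have hun : ‖u‖ = 1 := by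
        rw [hu, norm_smul, norm_inv, norm_norm, inv_mul_cancel₀ hwn]
      have : (⇑(((ℝ ∙ w)ᗮ).reflection) : V → V) = refl u hun := by
        funext x
        rw [Submodule.reflection_orthogonal_apply, Submodule.reflection_singleton_apply, refl_apply,
          hu]
        simp only [real_inner_smul_left, smul_smul, RCLike.ofReal_real_eq_id, id, neg_sub]
        congr 1
        rw [← Nat.cast_smul_eq_nsmul ℝ, smul_smul]
        congr 1
        push_cast
        field_simp
      rw [this]
      exact refl_homotopic h2 hun hv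

end Pool.Agent.Fold
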