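import Pool.Agent.Lib_MP_9d9d56_gt.Basic

/-!
# Structure theorem

A continuous, norm preserving, positively homogeneous map that is straight in each direction is a
linear folding, in finite dimension.
-/

set_option autoImplicit false

namespace Pool.Agent.Fold

open Set Filter Topology Module
open scoped RealInnerProductSpace

universe u v

/-- Positively homogeneous, norm preserving, continuous maps that are straight in each direction. -/
structure PF {V : Type*} {W : Type*} [NormedAddCommGroup V] [InnerProductSpace ℝ V]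
    [NormedAddCommGroup W] [InnerProductSpace ℝ W] (F : V → W) : Prop where
  cont : Continuous F
  norm_map : ∀ x, ‖F x‖ = ‖x‖
  homog : ∀ (t : ℝ) (x : V), 0 ≤ t → F (t • x) = t • F x
  loc : ∀ x w, ∃ s > (0 : ℝ), ∃ w', ‖w'‖ = ‖w‖ ∧ ∀ t ∈ Icc (0 : ℝ) s,
    F (x + t • w) = F x + t • w'

section
variable {V W : Type*} [NormedAddCommGroup V] [InnerProductSpace ℝ V]
  [NormedAddCommGroup W] [InnerProductSpace ℝ W]

lemma PF.lipschitz {F : V → W} (hF : PF F) (x y : V) : ‖F y - F x‖ ≤ ‖y - x‖ := by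
  set φ : ℝ → W := fun t => F (x + t • (y - x)) with hφ
  have hc : Continuous φ := hF.cont.comp (by fun_prop)
  have key := lip_of_local (φ := φ) (K := ‖y - x‖) hc.continuousOn (by
    intro t _
    obtain ⟨s, hs, w', hw', h⟩ := hF.loc (x + t • (y - x)) (y - x)
    have h4 : ∀ᶠ r in 𝓝[>] t, r ∈ Ioc t (t + s) := Ioc_mem_nhdsGT (by linarith)
    filter_upwards [h4] with r hr
    have h5 := h (r - t) ⟨by linarith [hr.1], by linarith [hr.2]⟩
    have h6 : x + t • (y - x) + (r - t) • (y - x) = x + r • (y - x) := by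
      rw [sub_smul]; abel
    rw [h6] at h5
    simp only [hφ]
    rw [h5, add_sub_cancel_left, norm_smul, hw', Real.norm_of_nonneg (by linarith [hr.1]),
      mul_comm])
  simpa [hφ] using key

lemma PF.inner_le {F : V → W} (hF : PF F) (x y : V) : ⟪x, y⟫ ≤ ⟪F x, F y⟫ := by
  have h1 := hF.lipschitz y x
  have h2 : ‖F x - F y‖ ^ 2 ≤ ‖x - y‖ ^ 2 := by gcongr
  rw [norm_sub_sq_real, norm_sub_sq_real, hF.norm_map, hF.norm_map] at h2
  linarith

lemma straight {F : V → W} (hL : ∀ x y, ‖F y - F x‖ ≤ ‖y - x‖) {x y : V}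
    (h : ‖F y - F x‖ = ‖y - x‖) {t : ℝ} (ht : t ∈ Icc (0 : ℝ) 1) :
    F (x + t • (y - x)) = F x + t • (F y - F x) := by
  set z := x + t • (y - x) with hz
  set a := F z - F x with ha
  set b := F y - F z with hb
  set d := ‖y - x‖ with hd
  have hd0 : 0 ≤ d := norm_nonneg _
  have h1 : ‖a‖ ≤ t * d := by
    have := hL x z
    have h2 : z - x = t • (y - x) := by rw [hz]; abel
    rw [h2, norm_smul, Real.norm_of_nonneg ht.1] at this
    exact this
  have h2 : ‖b‖ ≤ (1 - t) * d := by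
    have := hL z y
    have h2 : y - z = (1 - t) • (y - x) := by rw [hz, sub_smul, one_smul]; abel
    rw [h2, norm_smul, Real.norm_of_nonneg (by linarith [ht.2])] at this
    exact this
  have h3 : ‖a + b‖ = d := by rw [ha, hb, ← h]; congr 1; abel
  have h4 : ‖a - t • (a + b)‖ ^ 2 ≤ 0 := by
    have e1 : a - t • (a + b) = (1 - t) • a - t • b := by
      rw [smul_add, sub_smul, one_smul]; abel
    have e2 : ‖a - t • (a + b)‖ ^ 2 = (1 - t) * ‖a‖ ^ 2 + t * ‖b‖ ^ 2 - t * (1 - t) * d ^ 2 := by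
      have e3 := norm_add_sq_real a b
      rw [h3] at e3
      rw [e1, norm_sub_sq_real, norm_smul, norm_smul, real_inner_smul_left, real_inner_smul_right]
      simp only [mul_pow, Real.norm_eq_abs, sq_abs]
      linear_combination (t * (1 - t)) * e3
    rw [e2]
    have h5 : ‖a‖ ^ 2 ≤ (t * d) ^ 2 := by gcongr
    have h6 : ‖b‖ ^ 2 ≤ ((1 - t) * d) ^ 2 := by gcongr
    have h7 := mul_le_mul_of_nonneg_left h5 (by linarith [ht.2] : 0 ≤ 1 - t)
    have h8 := mul_le_mul_of_nonneg_left h6 ht.1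
    nlinarith
  have h5 : a - t • (a + b) = 0 := by
    have : ‖a - t • (a + b)‖ ^ 2 = 0 := le_antisymm h4 (by positivity)
    rw [← norm_eq_zero]
    exact pow_eq_zero_iff (two_ne_zero) |>.mp this
  have h6 : F z = F x + a := by rw [ha]; abel
  rw [h6, sub_eq_zero.mp h5]
  congr 2
  rw [ha, hb]; abel

lemma PF.restrict {F : V → W} (hF : PF F) (H : Submodule ℝ V) : PF (fun y : H => F y) where
  cont := hF.cont.comp continuous_subtype_val
  norm_map x := hF.norm_map x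
  homog t x ht := hF.homog t x ht
  loc x w := hF.loc x w

lemma isFold_of_linear [FiniteDimensional ℝ V] {F : V → W} (hc : Continuous F)
    (hn : ∀ x, ‖F x‖ = ‖x‖) {𝒜 : Set (V →ₗ[ℝ] W)} (hf : 𝒜.Finite)
    (h : ∀ x, ∃ A ∈ 𝒜, F x = A x) : IsFold F := by
  have : CompleteSpace V := FiniteDimensional.complete ℝ V
  -- closed sets
  have hcl : ∀ A : V →ₗ[ℝ] W, IsClosed {x | F x = A x} := fun A =>
    isClosed_eq hc (LinearMap.continuous_of_finiteDimensional A)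
  set 𝒢 : Set (V →ₗ[ℝ] W) := {A | A ∈ 𝒜 ∧ (interior {x | F x = A x}).Nonempty} with h𝒢
  have hG : 𝒢.Finite := hf.subset (fun A hA => hA.1)
  have key : ∀ x, ∃ A ∈ 𝒢, F x = A x := by
    intro x
    by_contra hx
    push Not at hx
    have hU : IsOpen (⋃ A ∈ 𝒢, {x | F x = A x})ᶜ :=
      (hG.isClosed_biUnion fun A _ => hcl A).isOpen_compl
    have hxU : x ∈ (⋃ A ∈ 𝒢, {x | F x = A x})ᶜ := by
      intro h'
      obtain ⟨A, hA, hAx⟩ := mem_iUnion₂.mp h'
      exact hx A hA hAx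
    have hD : Dense (⋂ A ∈ 𝒜 \ 𝒢, {x | F x = A x}ᶜ) := by
      refine dense_biInter_of_isOpen (fun A _ => (hcl A).isOpen_compl)
        (hf.subset sdiff_subset).countable ?_
      intro A hA
      rw [← interior_eq_empty_iff_dense_compl]
      by_contra hne
      exact hA.2 ⟨hA.1, nonempty_iff_ne_empty.mpr hne⟩
    obtain ⟨y, hy1, hy2⟩ := hD.inter_open_nonempty _ hU ⟨x, hxU⟩
    obtain ⟨A, hA, hAy⟩ := h y
    by_cases hAG : A ∈ 𝒢
    · exact hy1 (mem_biUnion hAG hAy)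
    · exact (mem_iInter₂.mp hy2 A ⟨hA, hAG⟩) hAy
  have iso : ∀ A ∈ 𝒢, ∀ v, ‖A v‖ = ‖v‖ := by
    rintro A ⟨_, x, hx⟩ v
    rw [mem_interior_iff_mem_nhds] at hx
    have hev1 : ∀ᶠ t in 𝓝 (0 : ℝ), F (x + t • v) = A (x + t • v) := by
      have : Tendsto (fun t : ℝ => x + t • v) (𝓝 0) (𝓝 x) := by
        have h' : Continuous (fun t : ℝ => x + t • v) := by fun_prop
        simpa using h'.tendsto 0
      exact this.eventually hx
    have hev2 : ∀ᶠ t in 𝓝 (0 : ℝ), F (x - t • v) = A (x - t • v) := by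
      have : Tendsto (fun t : ℝ => x - t • v) (𝓝 0) (𝓝 x) := by
        have h' : Continuous (fun t : ℝ => x - t • v) := by fun_prop
        simpa using h'.tendsto 0
      exact this.eventually hx
    have hev3 : ∀ᶠ t in 𝓝[>] (0 : ℝ), t ∈ Ioi (0 : ℝ) := self_mem_nhdsWithin
    obtain ⟨t, ⟨ht1, ht2⟩, ht3⟩ :=
      (((hev1.and hev2).filter_mono nhdsWithin_le_nhds).and hev3).exists
    rw [mem_Ioi] at ht3
    have hx0 : F x = A x := by
      have := mem_of_mem_nhds hx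
      exact this
    have e1 := congrArg norm ht1
    have e2 := congrArg norm ht2
    rw [hn] at e1 e2
    have e3 : ‖x + t • v‖ ^ 2 = ‖A (x + t • v)‖ ^ 2 := by rw [e1]
    have e4 : ‖x - t • v‖ ^ 2 = ‖A (x - t • v)‖ ^ 2 := by rw [e2]
    have e5 : ‖x‖ ^ 2 = ‖A x‖ ^ 2 := by rw [← hx0, hn]
    rw [map_add, map_smul, norm_add_sq_real, norm_add_sq_real, norm_smul, norm_smul,
      real_inner_smul_right, real_inner_smul_right, Real.norm_of_nonneg ht3.le] at e3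
    rw [map_sub, map_smul, norm_sub_sq_real, norm_sub_sq_real, norm_smul, norm_smul,
      real_inner_smul_right, real_inner_smul_right, Real.norm_of_nonneg ht3.le] at e4
    have e6 : t ^ 2 * ‖A v‖ ^ 2 = t ^ 2 * ‖v‖ ^ 2 := by nlinarith
    have e7 : ‖A v‖ ^ 2 = ‖v‖ ^ 2 := mul_left_cancel₀ (by positivity) e6
    exact (sq_eq_sq₀ (norm_nonneg _) (norm_nonneg _)).mp e7
  refine ⟨hc, {B | B.toLinearMap ∈ 𝒢}, ?_, ?_⟩
  · exact hG.preimage (LinearIsometry.toLinearMap_injective.injOn)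
  · intro x
    obtain ⟨A, hA, hAx⟩ := key x
    exact ⟨⟨A, iso A hA⟩, hA, hAx⟩

/-- Linear extension of `B` on the orthogonal complement of `τ`, sending `τ` to `τ'` (when
`⟪τ, τ⟫ = k`). -/
noncomputable def extLin (τ : V) (τ' : W) (k : ℝ) (B : (ℝ ∙ τ)ᗮ →ₗ[ℝ] W) : V →ₗ[ℝ] W where
  toFun v := B ((ℝ ∙ τ)ᗮ.orthogonalProjectionOnto v) + (⟪τ, v⟫ / k) • τ'
  map_add' a b := by
    rw [map_add, map_add, inner_add_right, add_div, add_smul]; abel
  map_smul' r a := by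
    simp only [map_smul, real_inner_smul_right, RingHom.id_apply, smul_add, smul_smul, mul_div_assoc]

lemma extLin_mem {τ : V} {τ' : W} {k : ℝ} {B : (ℝ ∙ τ)ᗮ →ₗ[ℝ] W} (y : (ℝ ∙ τ)ᗮ) :
    extLin τ τ' k B y = B y := by
  have h : ⟪τ, (y : V)⟫ = 0 := Submodule.mem_orthogonal_singleton_iff_inner_right.mp y.2
  show B ((ℝ ∙ τ)ᗮ.orthogonalProjectionOnto (y : V)) + (⟪τ, (y : V)⟫ / k) • τ' = B y
  rw [h, Submodule.orthogonalProjectionOnto_mem_subspace_eq_self]
  simp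

lemma extLin_self {τ : V} {τ' : W} {k : ℝ} (hk : k ≠ 0) (hτ : ⟪τ, τ⟫ = k)
    {B : (ℝ ∙ τ)ᗮ →ₗ[ℝ] W} : extLin τ τ' k B τ = τ' := by
  show B ((ℝ ∙ τ)ᗮ.orthogonalProjectionOnto τ) + (⟪τ, τ⟫ / k) • τ' = τ'
  have h : (ℝ ∙ τ)ᗮ.orthogonalProjectionOnto τ = 0 := by
    apply Submodule.orthogonalProjectionOnto_apply_of_mem_orthogonal
    rw [Submodule.orthogonal_orthogonal]
    exact Submodule.mem_span_singleton_self τ
  rw [h, hτ, div_self hk]
  simp

/-- The local structure in one direction. -/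
lemma local_direction [FiniteDimensional ℝ V] {F : V → W} (hF : PF F)
    (IH : ∀ H : Submodule ℝ V, H ≠ ⊤ → IsFold (fun y : H => F y))
    {x w : V} (hx : ‖x‖ = 1) (hw : ‖w‖ = 1) (hxw : ⟪x, w⟫ = 0) :
    ∃ 𝒜 : Set (V →ₗ[ℝ] W), 𝒜.Finite ∧ ∃ δ > (0 : ℝ), ∀ᶠ u in 𝓝 w, ∀ r ∈ Icc (0 : ℝ) δ,
      ∃ A ∈ 𝒜, F (x + r • u) = A (x + r • u) := by
  obtain ⟨s, hs, w', hw', hloc⟩ := hF.loc x w
  rw [hw] at hw'
  have hxx : ⟪x, x⟫ = 1 := by rw [real_inner_self_eq_norm_sq, hx, one_pow]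
  have hww : ⟪w, w⟫ = 1 := by rw [real_inner_self_eq_norm_sq, hw, one_pow]
  have hwx : ⟪w, x⟫ = 0 := by rw [real_inner_comm]; exact hxw
  set c := s / 2 with hc
  have hc0 : 0 < c := by positivity
  set k := 1 + c ^ 2 with hk
  have hk0 : 0 < k := by positivity
  set p := x + c • w with hp
  set τ := w - c • x with hτ
  set τ' := w' - c • F x with hτ'
  -- the sector
  have sector : ∀ a b : ℝ, 0 < a → 0 ≤ b → b ≤ s * a →
      F (a • x + b • w) = a • F x + b • w' := by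
    intro a b ha hb hab
    have h1 : a • x + b • w = a • (x + (b / a) • w) := by
      rw [smul_add, smul_smul, mul_div_cancel₀ _ ha.ne']
    have h2 : b / a ∈ Icc (0 : ℝ) s := ⟨by positivity, by rw [div_le_iff₀ ha]; exact hab⟩
    rw [h1, hF.homog _ _ ha.le, hloc _ h2, smul_add, smul_smul, mul_div_cancel₀ _ ha.ne']
  have hFp : F p = F x + c • w' := hloc c ⟨hc0.le, by rw [hc]; linarith⟩
  -- the two points
  set e := s / (2 + s ^ 2) with he
  have he0 : 0 < e := by positivity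
  have hes : e * (2 + s ^ 2) = s := by rw [he]; field_simp
  have he1 : e * c < 1 := by
    rw [hc]; nlinarith
  have he2 : e ≤ c := by
    rw [hc]; nlinarith
  have hplus : F (p + e • τ) = F p + e • τ' := by
    have h1 : p + e • τ = (1 - e * c) • x + (c + e) • w := by
      rw [hp, hτ]; module
    rw [h1, sector _ _ (by linarith) (by positivity) (by rw [hc] at *; nlinarith), hFp, hτ']
    module
  have hminus : F (p - e • τ) = F p - e • τ' := by
    have h1 : p - e • τ = (1 + e * c) • x + (c - e) • w := by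
      rw [hp, hτ]; module
    rw [h1, sector _ _ (by positivity) (by linarith) (by rw [hc] at *; nlinarith), hFp, hτ']
    module
  -- inner products
  have hτp : ⟪τ, p⟫ = 0 := by
    rw [hτ, hp]
    simp only [inner_add_right, inner_sub_left, real_inner_smul_left, real_inner_smul_right,
      hxx, hww, hxw, hwx]
    ring
  have hττ : ⟪τ, τ⟫ = k := by
    rw [hτ, hk]
    simp only [inner_sub_right, inner_sub_left, real_inner_smul_left, real_inner_smul_right,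
      hxx, hww, hxw, hwx]
    ring
  have hpx : x = k⁻¹ • (p - c • τ) := by
    have : p - c • τ = k • x := by
      rw [hp, hτ, hk]; module
    rw [this, smul_smul, inv_mul_cancel₀ hk0.ne', one_smul]
  have hpx' : F x = k⁻¹ • (F p - c • τ') := by
    have : F p - c • τ' = k • F x := by
      rw [hFp, hτ', hk]; module
    rw [this, smul_smul, inv_mul_cancel₀ hk0.ne', one_smul]
  have hpH : p ∈ (ℝ ∙ τ)ᗮ := Submodule.mem_orthogonal_singleton_iff_inner_right.mpr hτp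
  have hHtop : (ℝ ∙ τ)ᗮ ≠ ⊤ := by
    intro h
    have h1 : τ ∈ (ℝ ∙ τ)ᗮ := by rw [h]; trivial
    have h2 := Submodule.mem_orthogonal_singleton_iff_inner_right.mp h1
    rw [hττ] at h2
    exact hk0.ne' h2
  obtain ⟨_, ℬ, hℬ, hB⟩ := IH _ hHtop
  have ev := IsFold.eventually (F := fun y : (ℝ ∙ τ)ᗮ => F y)
    (hF.cont.comp continuous_subtype_val) hℬ hB ⟨p, hpH⟩
  rw [nhds_subtype_eq_comap, eventually_comap] at ev
  -- key claim
  have key : ∀ y : (ℝ ∙ τ)ᗮ, ∀ B ∈ ℬ, F p = B ⟨p, hpH⟩ → F y = B y →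
      ∀ l ∈ Icc (0 : ℝ) 1, F (x + l • ((y : V) - x)) =
        extLin τ τ' k B.toLinearMap (x + l • ((y : V) - x)) := by
    intro y B _ hBp hBy l hl
    have hτy : ⟪τ, (y : V)⟫ = 0 := Submodule.mem_orthogonal_singleton_iff_inner_right.mp y.2
    have hyτ : ⟪(y : V), τ⟫ = 0 := by rw [real_inner_comm]; exact hτy
    have i1 : ⟪F y, F p⟫ = ⟪(y : V), p⟫ := by
      rw [hBp, hBy, B.inner_map_map]; rfl
    have i2 := hF.inner_le y (p + e • τ)
    have i3 := hF.inner_le y (p - e • τ)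
    rw [hplus, inner_add_right (y : V) p, inner_add_right (F y) (F p), real_inner_smul_right,
      real_inner_smul_right, i1, hyτ] at i2
    rw [hminus, inner_sub_right (y : V) p, inner_sub_right (F y) (F p), real_inner_smul_right,
      real_inner_smul_right, i1, hyτ] at i3
    have i4 : ⟪F y, τ'⟫ = 0 := by
      have j1 : 0 ≤ e * ⟪F y, τ'⟫ := by linarith
      have j2 : e * ⟪F y, τ'⟫ ≤ 0 := by linarith
      have j3 : e * ⟪F y, τ'⟫ = 0 := le_antisymm j2 j1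
      rcases mul_eq_zero.mp j3 with h | h
      · exact absurd h he0.ne'
      · exact h
    have i5 : ⟪F y, F x⟫ = ⟪(y : V), x⟫ := by
      conv_lhs => rw [hpx']
      conv_rhs => rw [hpx]
      rw [real_inner_smul_right, real_inner_smul_right, inner_sub_right (F y) (F p),
        inner_sub_right (y : V) p, real_inner_smul_right, real_inner_smul_right, i4, hyτ, i1]
    have i6 : ‖F y - F x‖ = ‖(y : V) - x‖ := by
      have : ‖F y - F x‖ ^ 2 = ‖(y : V) - x‖ ^ 2 := by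
        rw [norm_sub_sq_real, norm_sub_sq_real, hF.norm_map, hF.norm_map, i5]
      exact (sq_eq_sq₀ (norm_nonneg _) (norm_nonneg _)).mp this
    have i7 := straight hF.lipschitz i6 hl
    have e1 : extLin τ τ' k B.toLinearMap (y : V) = F y := by
      rw [extLin_mem, hBy]; rfl
    have e2 : extLin τ τ' k B.toLinearMap p = F p := by
      have := extLin_mem (τ := τ) (τ' := τ') (k := k) (B := B.toLinearMap) ⟨p, hpH⟩
      rw [hBp]; exact this
    have e3 : extLin τ τ' k B.toLinearMap τ = τ' := extLin_self hk0.ne' hττ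
    have e4 : extLin τ τ' k B.toLinearMap x = F x := by
      conv_lhs => rw [hpx]
      rw [map_smul, map_sub, map_smul, e2, e3, ← hpx']
    rw [i7, map_add, map_smul, map_sub, e1, e4]
  refine ⟨(fun B : (ℝ ∙ τ)ᗮ →ₗᵢ[ℝ] W => extLin τ τ' k B.toLinearMap) '' ℬ, hℬ.image _,
    c / 2, by positivity, ?_⟩
  -- directions near `w`
  have hwτ : ⟪w, τ⟫ = 1 := by
    rw [hτ]
    simp only [inner_sub_right, real_inner_smul_right, hww, hwx]
    ring
  have t1 : Tendsto (fun u : V => ⟪u, τ⟫) (𝓝 w) (𝓝 1) := by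
    have : Continuous (fun u : V => ⟪u, τ⟫) := by fun_prop
    have h := this.tendsto w
    rwa [hwτ] at h
  have t2 : Tendsto (fun u : V => c / ⟪u, τ⟫) (𝓝 w) (𝓝 c) := by
    have := (tendsto_const_nhds (x := c)).div t1 one_ne_zero
    rwa [div_one] at this
  have t3 : Tendsto (fun u : V => x + (c / ⟪u, τ⟫) • u) (𝓝 w) (𝓝 p) := by
    exact tendsto_const_nhds.add (t2.smul tendsto_id)
  have ev1 : ∀ᶠ u in 𝓝 w, 1 / 2 < ⟪u, τ⟫ := t1.eventually (lt_mem_nhds (by norm_num))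
  have ev2 : ∀ᶠ u in 𝓝 w, c / 2 < c / ⟪u, τ⟫ := t2.eventually (lt_mem_nhds (by linarith))
  filter_upwards [ev1, ev2, t3.eventually ev] with u h1 h2 h3 r hr
  have hu0 : 0 < ⟪u, τ⟫ := by linarith
  have hτx : ⟪x, τ⟫ = -c := by
    rw [hτ]
    simp only [inner_sub_right, real_inner_smul_right, hxx, hxw]
    ring
  have hmem : x + (c / ⟪u, τ⟫) • u ∈ (ℝ ∙ τ)ᗮ := by
    rw [Submodule.mem_orthogonal_singleton_iff_inner_left, inner_add_left, real_inner_smul_left,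
      hτx, div_mul_cancel₀ _ hu0.ne']
    ring
  obtain ⟨B, hBm, hB1, hB2⟩ := h3 ⟨_, hmem⟩ rfl
  refine ⟨_, ⟨B, hBm, rfl⟩, ?_⟩
  set R := c / ⟪u, τ⟫ with hR
  have hR0 : 0 < R := by positivity
  have hl : r / R ∈ Icc (0 : ℝ) 1 := by
    refine ⟨div_nonneg hr.1 hR0.le, ?_⟩
    rw [div_le_one hR0]
    linarith [hr.2]
  have := key ⟨_, hmem⟩ B hBm hB1 hB2 (r / R) hl
  have h4 : x + (r / R) • ((x + R • u) - x) = x + r • u := by
    rw [add_sub_cancel_left, smul_smul, div_mul_cancel₀ _ hR0.ne']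
  simpa only [h4] using this

/-- The local structure at a point. -/
lemma local_point [FiniteDimensional ℝ V] {F : V → W} (hF : PF F)
    (IH : ∀ H : Submodule ℝ V, H ≠ ⊤ → IsFold (fun y : H => F y))
    {x : V} (hx : ‖x‖ = 1) :
    ∃ 𝒜 : Set (V →ₗ[ℝ] W), 𝒜.Finite ∧ ∀ᶠ y in 𝓝 x, ∃ A ∈ 𝒜, F y = A y := by
  have hxx : ⟪x, x⟫ = 1 := by rw [real_inner_self_eq_norm_sq, hx, one_pow]
  have hK : IsCompact (Metric.sphere (0 : V) 1 ∩ {w | ⟪x, w⟫ = 0}) :=
    (isCompact_sphere (0 : V) 1).inter_right (isClosed_eq (by fun_prop) (by fun_prop))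
  have hP : ∃ 𝒜 : Set (V →ₗ[ℝ] W), 𝒜.Finite ∧ ∃ δ > (0 : ℝ),
      ∀ u ∈ Metric.sphere (0 : V) 1 ∩ {w | ⟪x, w⟫ = 0}, ∀ r ∈ Icc (0 : ℝ) δ,
      ∃ A ∈ 𝒜, F (x + r • u) = A (x + r • u) := by
    refine IsCompact.induction_on (p := fun S => ∃ 𝒜 : Set (V →ₗ[ℝ] W), 𝒜.Finite ∧ ∃ δ > (0 : ℝ),
      ∀ u ∈ S, ∀ r ∈ Icc (0 : ℝ) δ, ∃ A ∈ 𝒜, F (x + r • u) = A (x + r • u)) hK ?_ ?_ ?_ ?_
    · exact ⟨∅, finite_empty, 1, one_pos, fun u hu => absurd hu (notMem_empty u)⟩
    · rintro S T hST ⟨𝒜, h1, δ, h2, h3⟩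
      exact ⟨𝒜, h1, δ, h2, fun u hu => h3 u (hST hu)⟩
    · rintro S T ⟨𝒜, h1, δ, h2, h3⟩ ⟨𝒜', h1', δ', h2', h3'⟩
      refine ⟨𝒜 ∪ 𝒜', h1.union h1', min δ δ', lt_min h2 h2', ?_⟩
      rintro u (hu | hu) r hr
      · obtain ⟨A, hA, hAu⟩ := h3 u hu r ⟨hr.1, hr.2.trans (min_le_left _ _)⟩
        exact ⟨A, Or.inl hA, hAu⟩
      · obtain ⟨A, hA, hAu⟩ := h3' u hu r ⟨hr.1, hr.2.trans (min_le_right _ _)⟩
        exact ⟨A, Or.inr hA, hAu⟩
    · rintro w ⟨hw1, hw2⟩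
      have hw : ‖w‖ = 1 := by simpa using hw1
      obtain ⟨𝒜, h1, δ, h2, h3⟩ := local_direction hF IH hx hw hw2
      exact ⟨{u | ∀ r ∈ Icc (0 : ℝ) δ, ∃ A ∈ 𝒜, F (x + r • u) = A (x + r • u)},
        mem_nhdsWithin_of_mem_nhds h3, 𝒜, h1, δ, h2, fun u hu => hu⟩
  obtain ⟨𝒜, h𝒜, δ, hδ, hall⟩ := hP
  let A₀ : V →ₗ[ℝ] W := (LinearMap.toSpanSingleton ℝ W (F x)).comp (innerₛₗ ℝ x)
  refine ⟨𝒜 ∪ {A₀}, h𝒜.union (finite_singleton _), ?_⟩
  have t1 : Tendsto (fun y : V => ⟪x, y⟫) (𝓝 x) (𝓝 1) := by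
    have : Continuous (fun y : V => ⟪x, y⟫) := by fun_prop
    have h := this.tendsto x
    rwa [hxx] at h
  have t2 : Tendsto (fun y : V => ‖y - ⟪x, y⟫ • x‖ - δ * ⟪x, y⟫) (𝓝 x) (𝓝 (-δ)) := by
    have : Continuous (fun y : V => ‖y - ⟪x, y⟫ • x‖ - δ * ⟪x, y⟫) := by fun_prop
    have h := this.tendsto x
    rw [hxx] at h
    simpa using h
  have ev1 : ∀ᶠ y in 𝓝 x, 0 < ⟪x, y⟫ := t1.eventually (lt_mem_nhds one_pos)
  have ev2 : ∀ᶠ y in 𝓝 x, ‖y - ⟪x, y⟫ • x‖ - δ * ⟪x, y⟫ < 0 :=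
    t2.eventually (gt_mem_nhds (by linarith))
  filter_upwards [ev1, ev2] with y hy1 hy2
  set a := ⟪x, y⟫ with ha
  set z := y - a • x with hz
  by_cases hz0 : z = 0
  · refine ⟨A₀, Or.inr rfl, ?_⟩
    have h1 : y = a • x := sub_eq_zero.mp hz0
    have h2 : A₀ y = a • F x := by
      show (LinearMap.toSpanSingleton ℝ W (F x)) ⟪x, y⟫ = a • F x
      rw [LinearMap.toSpanSingleton_apply]
    rw [h2, ← hF.homog _ _ hy1.le, ← h1]
  · have hzn : 0 < ‖z‖ := norm_pos_iff.mpr hz0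
    have hxz : ⟪x, z⟫ = 0 := by
      rw [hz, inner_sub_right, real_inner_smul_right, hxx, ← ha]; ring
    have hu : ‖z‖⁻¹ • z ∈ Metric.sphere (0 : V) 1 ∩ {w | ⟪x, w⟫ = 0} := by
      refine ⟨?_, ?_⟩
      · rw [mem_sphere_zero_iff_norm, norm_smul, norm_inv, norm_norm, inv_mul_cancel₀ hzn.ne']
      · show ⟪x, ‖z‖⁻¹ • z⟫ = 0
        rw [real_inner_smul_right, hxz, mul_zero]
    have hr : ‖z‖ / a ∈ Icc (0 : ℝ) δ := by
      refine ⟨by positivity, ?_⟩
      rw [div_le_iff₀ hy1]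
      linarith
    obtain ⟨A, hA, hAe⟩ := hall _ hu _ hr
    refine ⟨A, Or.inl hA, ?_⟩
    have h1 : x + (‖z‖ / a) • ‖z‖⁻¹ • z = a⁻¹ • y := by
      have h2 : ‖z‖ / a * ‖z‖⁻¹ = a⁻¹ := by field_simp
      rw [smul_smul, h2, hz, smul_sub, smul_smul, inv_mul_cancel₀ hy1.ne', one_smul]
      abel
    rw [h1, hF.homog _ _ (by positivity), map_smul] at hAe
    have h3 : a⁻¹ ≠ 0 := by positivity
    exact smul_right_injective W h3 hAe

end

/-- **Structure theorem.** -/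
theorem PF.isFold_aux {W : Type v} [NormedAddCommGroup W] [InnerProductSpace ℝ W] :
    ∀ (n : ℕ) (V : Type u) [NormedAddCommGroup V] [InnerProductSpace ℝ V]
    [FiniteDimensional ℝ V] (F : V → W), finrank ℝ V = n → PF F → IsFold F := by
  intro n
  induction n using Nat.strong_induction_on with
  | _ n ih =>
    intro V _ _ _ F hn hF
    have IH : ∀ H : Submodule ℝ V, H ≠ ⊤ → IsFold (fun y : H => F y) := by
      intro H hH
      have h1 : finrank ℝ H < n := by rw [← hn]; exact Submodule.finrank_lt hH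
      exact ih _ h1 H _ rfl (hF.restrict H)
    have hP : ∃ 𝒜 : Set (V →ₗ[ℝ] W), 𝒜.Finite ∧ ∀ y ∈ Metric.sphere (0 : V) 1,
        ∃ A ∈ 𝒜, F y = A y := by
      refine IsCompact.induction_on (p := fun S => ∃ 𝒜 : Set (V →ₗ[ℝ] W), 𝒜.Finite ∧
        ∀ y ∈ S, ∃ A ∈ 𝒜, F y = A y) (isCompact_sphere (0 : V) 1) ?_ ?_ ?_ ?_
      · exact ⟨∅, finite_empty, fun u hu => absurd hu (notMem_empty u)⟩
      · rintro S T hST ⟨𝒜, h1, h3⟩
        exact ⟨𝒜, h1, fun u hu => h3 u (hST hu)⟩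
      · rintro S T ⟨𝒜, h1, h3⟩ ⟨𝒜', h1', h3'⟩
        refine ⟨𝒜 ∪ 𝒜', h1.union h1', ?_⟩
        rintro u (hu | hu)
        · obtain ⟨A, hA, hAu⟩ := h3 u hu
          exact ⟨A, Or.inl hA, hAu⟩
        · obtain ⟨A, hA, hAu⟩ := h3' u hu
          exact ⟨A, Or.inr hA, hAu⟩
      · intro x hx
        have hx' : ‖x‖ = 1 := by simpa using hx
        obtain ⟨𝒜, h1, h3⟩ := local_point hF IH hx'
        exact ⟨{y | ∃ A ∈ 𝒜, F y = A y}, mem_nhdsWithin_of_mem_nhds h3, 𝒜, h1, fun u hu => hu⟩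
    obtain ⟨𝒜, h𝒜, hall⟩ := hP
    refine isFold_of_linear hF.cont hF.norm_map (h𝒜.union (finite_singleton 0)) ?_
    intro y
    by_cases hy : y = 0
    · refine ⟨0, Or.inr rfl, ?_⟩
      have : ‖F y‖ = 0 := by rw [hF.norm_map, hy, norm_zero]
      rw [norm_eq_zero.mp this]; rfl
    · have hyn : 0 < ‖y‖ := norm_pos_iff.mpr hy
      obtain ⟨A, hA, hAe⟩ := hall (‖y‖⁻¹ • y) (by
        rw [mem_sphere_zero_iff_norm, norm_smul, norm_inv, norm_norm, inv_mul_cancel₀ hyn.ne'])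
      refine ⟨A, Or.inl hA, ?_⟩
      rw [hF.homog _ _ (by positivity), map_smul] at hAe
      have h3 : ‖y‖⁻¹ ≠ 0 := by positivity
      exact smul_right_injective W h3 hAe

theorem PF.isFold {V : Type u} {W : Type v} [NormedAddCommGroup V] [InnerProductSpace ℝ V]
    [FiniteDimensional ℝ V] [NormedAddCommGroup W] [InnerProductSpace ℝ W] {F : V → W}
    (hF : PF F) : IsFold F :=
  PF.isFold_aux _ V F rfl hF

end Pool.Agent.Fold
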