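import Pool.Agent.Lib_MP_9d9d56_gt.Basic

/-!
# The folding surgery
-/

set_option autoImplicit false

namespace Pool.Agent.Fold

open Set Filter Topology
open scoped RealInnerProductSpace unitInterval

variable {V W : Type*} [NormedAddCommGroup V] [InnerProductSpace ℝ V]
  [NormedAddCommGroup W] [InnerProductSpace ℝ W]

lemma IsFold.smul_nonneg {F : V → W} (hF : IsFold F) {r : ℝ} (hr : 0 ≤ r) (x : V) :
    F (r • x) = r • F x := by
  have h1 := hF.inner_le (r • x) x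
  have h2 : ‖F (r • x) - r • F x‖ ^ 2 ≤ 0 := by
    rw [norm_sub_sq_real, hF.norm_map, norm_smul, norm_smul, hF.norm_map, inner_smul_right]
    rw [inner_smul_left, real_inner_self_eq_norm_sq] at h1
    simp only [conj_trivial] at h1
    rw [Real.norm_of_nonneg hr]
    nlinarith [mul_le_mul_of_nonneg_left h1 hr]
  have h3 : ‖F (r • x) - r • F x‖ = 0 := by
    have := norm_nonneg (F (r • x) - r • F x)
    nlinarith
  exact sub_eq_zero.mp (norm_eq_zero.mp h3)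

/-- The function whose sign governs the surgery. -/
def psi (F : V → W) (p : V) (q : W) (x : V) (s : ℝ) : ℝ :=
  ⟪x - s • p, p⟫ - ⟪F (x - s • p), q⟫

/-- A surgery parameter: complementarity conditions. -/
structure Sol (F : V → W) (p : V) (q : W) (x : V) (s : ℝ) : Prop where
  nonneg : 0 ≤ s
  nonpos : psi F p q x s ≤ 0
  compl : s * psi F p q x s = 0

lemma psi_le {F : V → W} (hF : IsFold F) {p : V} {q : W} (hp : ‖p‖ = 1) (hq : ‖q‖ = 1) (x : V)
    {s : ℝ} (hs : 0 ≤ s) : psi F p q x s ≤ 2 * ‖x‖ - s * (1 + ⟪F (-p), q⟫) := by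
  unfold psi
  have h1 : ⟪x - s • p, p⟫ = ⟪x, p⟫ - s := by
    rw [inner_sub_left, inner_smul_left, real_inner_self_eq_norm_sq, hp]; simp
  have h2 : ⟪x, p⟫ ≤ ‖x‖ := by
    have := real_inner_le_norm x p
    rwa [hp, mul_one] at this
  have h3 : F (s • (-p)) = s • F (-p) := hF.smul_nonneg hs _
  have h4 : ‖F (s • (-p)) - F (x - s • p)‖ ≤ ‖x‖ := by
    refine (hF.lipschitz (x - s • p) (s • (-p))).trans (le_of_eq ?_)
    rw [← norm_neg]; congr 1; rw [smul_neg]; abel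
  have h5 : ⟪F (s • (-p)) - F (x - s • p), q⟫ ≤ ‖x‖ := by
    refine (real_inner_le_norm _ _).trans ?_
    rw [hq, mul_one]; exact h4
  rw [inner_sub_left, h3, inner_smul_left] at h5
  simp only [conj_trivial] at h5
  rw [h1]
  nlinarith

lemma delta_pos {F : V → W} (hF : IsFold F) {p : V} {q : W} (hp : ‖p‖ = 1) (hq : ‖q‖ = 1)
    (hne : q ≠ -F (-p)) : 0 < 1 + ⟪F (-p), q⟫ := by
  have h1 : ‖q + F (-p)‖ ^ 2 = 2 * (1 + ⟪F (-p), q⟫) := by
    rw [norm_add_sq_real, hF.norm_map, norm_neg, hp, hq, real_inner_comm]; ring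
  have h2 : 0 < ‖q + F (-p)‖ := by
    rw [norm_pos_iff]
    intro h
    exact hne (eq_neg_of_add_eq_zero_left h)
  nlinarith [sq_pos_of_pos h2]

lemma Sol.bound {F : V → W} (hF : IsFold F) {p : V} {q : W} (hp : ‖p‖ = 1) (hq : ‖q‖ = 1) {x : V}
    {s : ℝ} (h : Sol F p q x s) : s * (1 + ⟪F (-p), q⟫) ≤ 2 * ‖x‖ := by
  rcases h.nonneg.eq_or_lt with h0 | h0
  · rw [← h0, zero_mul]; positivity
  · have h1 : psi F p q x s = 0 := by
      have := h.compl
      rcases mul_eq_zero.mp this with h2 | h2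
      · exact absurd h2 h0.ne'
      · exact h2
    have h2 := psi_le hF hp hq x h.nonneg
    linarith

lemma exists_sol {F : V → W} (hF : IsFold F) {p : V} {q : W} (hp : ‖p‖ = 1) (hq : ‖q‖ = 1)
    (hne : q ≠ -F (-p)) (x : V) : ∃ s, Sol F p q x s := by
  have hδ := delta_pos hF hp hq hne
  set δ := 1 + ⟪F (-p), q⟫ with hδdef
  by_cases h0 : psi F p q x 0 ≤ 0
  · exact ⟨0, le_rfl, h0, by simp⟩
  push Not at h0
  have hcont : Continuous (fun s => psi F p q x s) := by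
    unfold psi
    have := hF.cont
    fun_prop
  set M := 2 * ‖x‖ / δ with hM
  have hM0 : 0 ≤ M := by positivity
  have hMle : psi F p q x M ≤ 0 := by
    have := psi_le hF hp hq x hM0
    have h2 : M * δ = 2 * ‖x‖ := by rw [hM]; field_simp
    linarith
  obtain ⟨s, hs1, hs2⟩ := intermediate_value_Icc' hM0 hcont.continuousOn ⟨hMle, h0.le⟩
  simp only at hs2
  exact ⟨s, hs1.1, hs2.le, by rw [hs2, mul_zero]⟩

/-- The key Lipschitz type estimate for the surgery. -/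
lemma key_estimate {F : V → W} (hF : IsFold F) {p : V} {q q' : W} (hp : ‖p‖ = 1) (hq : ‖q‖ = 1)
    (hq' : ‖q'‖ = 1) {x x' : V} {s s' : ℝ} (h : Sol F p q x s) (h' : Sol F p q' x' s') {R : ℝ}
    (hx : ‖x‖ ≤ R) (hx' : ‖x'‖ ≤ R) (hs : s ≤ R) (hs' : s' ≤ R) :
    ‖(F (x - s • p) + s • q) - (F (x' - s' • p) + s' • q')‖ ^ 2 ≤
      ‖x - x'‖ ^ 2 + 16 * R ^ 2 * ‖q - q'‖ := by
  obtain ⟨h1, h2, h3⟩ := h
  obtain ⟨h1', h2', h3'⟩ := h'
  have hR : 0 ≤ R := (norm_nonneg x).trans hx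
  set z := x - s • p with hz
  set z' := x' - s' • p with hz'
  set a := F z with ha
  set b := F z' with hb
  have hzn : ‖z‖ ≤ 2 * R := by
    calc ‖z‖ ≤ ‖x‖ + ‖s • p‖ := norm_sub_le _ _
      _ ≤ R + R := by
        rw [norm_smul, hp, mul_one, Real.norm_of_nonneg h1]; exact add_le_add hx hs
      _ = 2 * R := by ring
  have hzn' : ‖z'‖ ≤ 2 * R := by
    calc ‖z'‖ ≤ ‖x'‖ + ‖s' • p‖ := norm_sub_le _ _
      _ ≤ R + R := by
        rw [norm_smul, hp, mul_one, Real.norm_of_nonneg h1']; exact add_le_add hx' hs'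
      _ = 2 * R := by ring
  have hbn : ‖b‖ ≤ 2 * R := by rw [hb, hF.norm_map]; exact hzn'
  have han : ‖a‖ ≤ 2 * R := by rw [ha, hF.norm_map]; exact hzn
  have habn : ‖a - b‖ ≤ 4 * R := (norm_sub_le _ _).trans (by linarith)
  have hqq : ‖q - q'‖ ≤ 2 := (norm_sub_le _ _).trans (by rw [hq, hq']; norm_num)
  -- decomposition
  set u := (a - b) + (s - s') • q with hu
  have hdec : (a + s • q) - (b + s' • q') = u + s' • (q - q') := by
    rw [hu, sub_smul, smul_sub]; abel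
  have hdec2 : ‖u + s' • (q - q')‖ ^ 2 =
      ‖u‖ ^ 2 + 2 * s' * ⟪u, q - q'⟫ + s' ^ 2 * ‖q - q'‖ ^ 2 := by
    rw [norm_add_sq_real, inner_smul_right, norm_smul, Real.norm_of_nonneg h1']; ring
  have hu2 : ‖u‖ ^ 2 = ‖a - b‖ ^ 2 + 2 * (s - s') * ⟪a - b, q⟫ + (s - s') ^ 2 := by
    rw [hu, norm_add_sq_real, inner_smul_right, norm_smul, hq, mul_one, Real.norm_eq_abs, sq_abs]
    ring
  have hlip : ‖a - b‖ ^ 2 ≤ ‖z - z'‖ ^ 2 := by
    have := hF.lipschitz z' z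
    gcongr
  have hzz : ‖z - z'‖ ^ 2 = ‖x - x'‖ ^ 2 - 2 * (s - s') * ⟪x - x', p⟫ + (s - s') ^ 2 := by
    have : z - z' = (x - x') - (s - s') • p := by rw [hz, hz', sub_smul]; abel
    rw [this, norm_sub_sq_real, inner_smul_right, norm_smul, hp, mul_one, Real.norm_eq_abs, sq_abs]
    ring
  have hzp : ⟪z, p⟫ = ⟪x, p⟫ - s := by
    rw [hz, inner_sub_left, inner_smul_left, real_inner_self_eq_norm_sq, hp]; simp
  have hzp' : ⟪z', p⟫ = ⟪x', p⟫ - s' := by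
    rw [hz', inner_sub_left, inner_smul_left, real_inner_self_eq_norm_sq, hp]; simp
  have hpsi : psi F p q x s = ⟪x, p⟫ - s - ⟪a, q⟫ := by
    unfold psi; rw [← hz, ← ha, hzp]
  have hpsi' : psi F p q' x' s' = ⟪x', p⟫ - s' - ⟪b, q'⟫ := by
    unfold psi; rw [← hz', ← hb, hzp']
  have hbq : ⟪b, q⟫ = ⟪b, q'⟫ + ⟪b, q - q'⟫ := by rw [inner_sub_right]; ring
  have hxx : ⟪x - x', p⟫ = ⟪x, p⟫ - ⟪x', p⟫ := inner_sub_left _ _ _
  have hab : ⟪a - b, q⟫ = ⟪a, q⟫ - ⟪b, q⟫ := inner_sub_left _ _ _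
  set P := psi F p q x s with hP
  set P' := psi F p q' x' s' with hP'
  have hcross : 0 ≤ (s - s') * (P - P') := by nlinarith
  have hun : ‖u‖ ^ 2 ≤ ‖x - x'‖ ^ 2 - 2 * (s - s') * ⟪b, q - q'⟫ := by
    have e1 : ⟪a - b, q⟫ = (⟪x, p⟫ - ⟪x', p⟫) - (s - s') - (P - P') - ⟪b, q - q'⟫ := by
      rw [hab, hbq]; linarith
    rw [hu2]
    rw [e1]
    have e2 : ‖a - b‖ ^ 2 ≤ ‖x - x'‖ ^ 2 - 2 * (s - s') * (⟪x, p⟫ - ⟪x', p⟫) + (s - s') ^ 2 := by
      rw [← hxx, ← hzz]; exact hlip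
    nlinarith
  have hb1 : |⟪b, q - q'⟫| ≤ 2 * R * ‖q - q'‖ :=
    (abs_real_inner_le_norm _ _).trans (by gcongr)
  have hss : |s - s'| ≤ R := by rw [abs_le]; constructor <;> linarith
  have hb2 : -(2 * (s - s') * ⟪b, q - q'⟫) ≤ 4 * R ^ 2 * ‖q - q'‖ := by
    have e1 : -(2 * (s - s') * ⟪b, q - q'⟫) ≤ 2 * (|s - s'| * |⟪b, q - q'⟫|) := by
      rw [← abs_mul]
      have := neg_abs_le ((s - s') * ⟪b, q - q'⟫)
      linarith
    have e2 : |s - s'| * |⟪b, q - q'⟫| ≤ R * (2 * R * ‖q - q'‖) := by gcongr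
    nlinarith
  have hu3 : ‖u‖ ≤ 5 * R := by
    calc ‖u‖ ≤ ‖a - b‖ + ‖(s - s') • q‖ := norm_add_le _ _
      _ ≤ 4 * R + R := by
        rw [norm_smul, hq, mul_one, Real.norm_eq_abs]; exact add_le_add habn hss
      _ = 5 * R := by ring
  -- a sharper estimate of the cross term
  have hcr : 2 * s' * ⟪u, q - q'⟫ ≤ 10 * R ^ 2 * ‖q - q'‖ := by
    have e1 : ⟪u, q - q'⟫ ≤ 5 * R * ‖q - q'‖ :=
      (real_inner_le_norm _ _).trans (by gcongr)
    have e2 : 2 * s' * ⟪u, q - q'⟫ ≤ 2 * s' * (5 * R * ‖q - q'‖) := by gcongr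
    have e3 : 2 * s' * (5 * R * ‖q - q'‖) ≤ 2 * R * (5 * R * ‖q - q'‖) := by gcongr
    nlinarith
  have hlast : s' ^ 2 * ‖q - q'‖ ^ 2 ≤ 2 * R ^ 2 * ‖q - q'‖ := by
    have e1 : s' ^ 2 ≤ R ^ 2 := by gcongr
    have e2 : ‖q - q'‖ ^ 2 ≤ 2 * ‖q - q'‖ := by
      rw [sq]; exact mul_le_mul_of_nonneg_right hqq (norm_nonneg _)
    calc s' ^ 2 * ‖q - q'‖ ^ 2 ≤ R ^ 2 * (2 * ‖q - q'‖) := by gcongr
      _ = 2 * R ^ 2 * ‖q - q'‖ := by ring
  rw [hdec, hdec2]
  linarith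

/-- The linear isometry appearing in the surgery. -/
noncomputable def surgIso (A : V →ₗᵢ[ℝ] W) (p : V) (q : W) (hp : ‖p‖ = 1) (hq : ‖q‖ = 1) :
    V →ₗᵢ[ℝ] W where
  toLinearMap := A.toLinearMap -
    ((1 - ⟪A p, q⟫)⁻¹ • ((innerₛₗ ℝ p) - (innerₛₗ ℝ q) ∘ₗ A.toLinearMap)).smulRight (A p - q)
  norm_map' := by
    intro x
    have hval : (A.toLinearMap -
      ((1 - ⟪A p, q⟫)⁻¹ • ((innerₛₗ ℝ p) - (innerₛₗ ℝ q) ∘ₗ A.toLinearMap)).smulRight
        (A p - q)) x = A x - ((1 - ⟪A p, q⟫)⁻¹ * (⟪p, x⟫ - ⟪q, A x⟫)) • (A p - q) := by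
      simp
    rw [hval]
    set k := 1 - ⟪A p, q⟫ with hk
    set d := ⟪p, x⟫ - ⟪q, A x⟫ with hd
    have hsq : ‖A x - (k⁻¹ * d) • (A p - q)‖ ^ 2 = ‖x‖ ^ 2 := by
      have e1 : ⟪A x, A p - q⟫ = d := by
        rw [inner_sub_right, A.inner_map_map, real_inner_comm p x, real_inner_comm q (A x)]
      have e2 : ‖A p - q‖ ^ 2 = 2 * k := by
        rw [norm_sub_sq_real, A.norm_map, hp, hq]; ring
      rw [norm_sub_sq_real, inner_smul_right, norm_smul, A.norm_map, e1, mul_pow, e2,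
        Real.norm_eq_abs, sq_abs]
      by_cases hk0 : k = 0
      · rw [hk0]; simp
      · field_simp; ring
    exact (sq_eq_sq₀ (norm_nonneg _) (norm_nonneg _)).mp hsq

lemma surgIso_apply (A : V →ₗᵢ[ℝ] W) (p : V) (q : W) (hp : ‖p‖ = 1) (hq : ‖q‖ = 1) (x : V) :
    surgIso A p q hp hq x = A x - ((1 - ⟪A p, q⟫)⁻¹ * (⟪p, x⟫ - ⟪q, A x⟫)) • (A p - q) := by
  change (A.toLinearMap -
      ((1 - ⟪A p, q⟫)⁻¹ • ((innerₛₗ ℝ p) - (innerₛₗ ℝ q) ∘ₗ A.toLinearMap)).smulRight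
        (A p - q)) x = _
  simp

/-- Values of the surgery are given by linear isometries. -/
lemma surg_value {F : V → W} {p : V} {q : W} (hp : ‖p‖ = 1) (hq : ‖q‖ = 1) {x : V} {s : ℝ}
    (h : Sol F p q x s) {A : V →ₗᵢ[ℝ] W} (hA : F (x - s • p) = A (x - s • p)) :
    F (x - s • p) + s • q = A x ∨ F (x - s • p) + s • q = surgIso A p q hp hq x := by
  rcases h.nonneg.eq_or_lt with h0 | h0
  · left
    rw [hA, ← h0]; simp
  have h1 : psi F p q x s = 0 := by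
    rcases mul_eq_zero.mp h.compl with h2 | h2
    · exact absurd h2 h0.ne'
    · exact h2
  unfold psi at h1
  rw [hA, inner_sub_left, inner_smul_left, real_inner_self_eq_norm_sq, hp, _root_.map_sub,
    _root_.map_smul, inner_sub_left, inner_smul_left] at h1
  simp only [conj_trivial] at h1
  have h2 : s * (1 - ⟪A p, q⟫) = ⟪x, p⟫ - ⟪A x, q⟫ := by linarith
  by_cases hk : 1 - ⟪A p, q⟫ = 0
  · left
    have h3 : ‖A p - q‖ ^ 2 = 0 := by
      rw [norm_sub_sq_real, A.norm_map, hp, hq]; linarith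
    have h4 : A p = q := by
      rw [← sub_eq_zero, ← norm_eq_zero]
      exact pow_eq_zero_iff (two_ne_zero) |>.mp h3
    rw [hA, _root_.map_sub, _root_.map_smul, h4]; abel
  · right
    rw [surgIso_apply, hA, _root_.map_sub, _root_.map_smul]
    have h5 : (1 - ⟪A p, q⟫)⁻¹ * (⟪p, x⟫ - ⟪q, A x⟫) = s := by
      rw [real_inner_comm x p, real_inner_comm (A x) q, ← h2]; field_simp
    rw [h5, smul_sub]; abel

/-- **Surgery homotopy**. -/
lemma surgery {F : V → W} (hF : IsFold F) {p : V} (hp : ‖p‖ = 1) {q : I → W} (hqc : Continuous q)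
    (hq : ∀ t, ‖q t‖ = 1) (hne : ∀ t, q t ≠ -F (-p)) :
    ∃ H : I × V → W, Continuous H ∧ (∀ t, IsFold fun x => H (t, x)) ∧
      ∀ t x s, Sol F p (q t) x s → H (t, x) = F (x - s • p) + s • q t := by
  classical
  -- uniform lower bound
  obtain ⟨δ, hδ0, hδ⟩ : ∃ δ > 0, ∀ t, δ ≤ 1 + ⟪F (-p), q t⟫ := by
    obtain ⟨t₀, -, ht₀⟩ := isCompact_univ.exists_isMinOn (univ_nonempty (α := I))
      (f := fun t => 1 + ⟪F (-p), q t⟫) (by fun_prop)
    exact ⟨_, delta_pos hF hp (hq t₀) (hne t₀), fun t => ht₀ (mem_univ t)⟩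
  choose sg hsg using fun (t : I) (x : V) => exists_sol hF hp (hq t) (hne t) x
  set H : I × V → W := fun y => F (y.2 - sg y.1 y.2 • p) + sg y.1 y.2 • q y.1 with hH
  have hbd : ∀ t x s, Sol F p (q t) x s → s ≤ 2 * ‖x‖ / δ := by
    intro t x s hs
    rw [le_div_iff₀ hδ0]
    have h1 := hs.bound hF hp (hq t)
    have h2 := mul_le_mul_of_nonneg_left (hδ t) hs.nonneg
    linarith
  have huniq : ∀ t x s, Sol F p (q t) x s → H (t, x) = F (x - s • p) + s • q t := by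
    intro t x s hs
    have h1 := key_estimate hF hp (hq t) (hq t) (hsg t x) hs
      (R := max ‖x‖ (2 * ‖x‖ / δ)) (le_max_left _ _) (le_max_left _ _)
      ((hbd t x _ (hsg t x)).trans (le_max_right _ _)) ((hbd t x _ hs).trans (le_max_right _ _))
    rw [sub_self x, sub_self (q t), norm_zero, norm_zero] at h1
    have h2 : ‖F (x - sg t x • p) + sg t x • q t - (F (x - s • p) + s • q t)‖ = 0 := by
      have := norm_nonneg (F (x - sg t x • p) + sg t x • q t - (F (x - s • p) + s • q t))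
      nlinarith
    exact sub_eq_zero.mp (norm_eq_zero.mp h2)
  have hcont : Continuous H := by
    rw [continuous_iff_continuousAt]
    rintro ⟨t₀, x₀⟩
    rw [ContinuousAt, tendsto_iff_norm_sub_tendsto_zero]
    set R := max (‖x₀‖ + 1) (2 * (‖x₀‖ + 1) / δ) with hR
    have hest : ∀ᶠ y : I × V in 𝓝 (t₀, x₀), ‖H y - H (t₀, x₀)‖ ≤
        Real.sqrt (‖y.2 - x₀‖ ^ 2 + 16 * R ^ 2 * ‖q y.1 - q t₀‖) := by
      have h1 : ∀ᶠ y : I × V in 𝓝 (t₀, x₀), ‖y.2‖ < ‖x₀‖ + 1 := by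
        have hc : Continuous (fun y : I × V => ‖y.2‖) := by fun_prop
        exact hc.continuousAt.eventually_lt continuousAt_const (by simp)
      filter_upwards [h1] with y hy
      apply Real.le_sqrt_of_sq_le
      have hb1 : sg y.1 y.2 ≤ R := by
        refine ((hbd _ _ _ (hsg y.1 y.2)).trans ?_).trans (le_max_right _ _)
        gcongr
      have hb2 : sg t₀ x₀ ≤ R := by
        refine ((hbd _ _ _ (hsg t₀ x₀)).trans ?_).trans (le_max_right _ _)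
        gcongr
        linarith
      exact key_estimate hF hp (hq y.1) (hq t₀) (hsg y.1 y.2) (hsg t₀ x₀)
        (hy.le.trans (le_max_left _ _)) ((by linarith : ‖x₀‖ ≤ ‖x₀‖ + 1).trans (le_max_left _ _))
        hb1 hb2
    refine squeeze_zero' (Eventually.of_forall fun _ => norm_nonneg _) hest ?_
    have hc : Continuous (fun y : I × V =>
        Real.sqrt (‖y.2 - x₀‖ ^ 2 + 16 * R ^ 2 * ‖q y.1 - q t₀‖)) := by fun_prop
    have := hc.tendsto (t₀, x₀)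
    simpa using this
  refine ⟨H, hcont, fun t => ?_, huniq⟩
  obtain ⟨hFc, 𝒜, h𝒜, hFA⟩ := hF
  refine ⟨hcont.comp (by fun_prop), 𝒜 ∪ (fun A => surgIso A p (q t) hp (hq t)) '' 𝒜,
    h𝒜.union (h𝒜.image _), fun x => ?_⟩
  obtain ⟨A, hA, hAx⟩ := hFA (x - sg t x • p)
  rcases surg_value hp (hq t) (hsg t x) hAx with h | h
  · exact ⟨A, Or.inl hA, h⟩
  · exact ⟨_, Or.inr ⟨A, hA, rfl⟩, h⟩

end Pool.Agent.Fold
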