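import Pool.Agent.Lib_MP_9d9d56_gt.Defs
import Pool.Agent.Lib_MP_9d9d56_gt.Structure
import Pool.Agent.Lib_MP_9d9d56_gt.Surgery

/-!
# Linear foldings and isometric foldings of the sphere
-/

set_option autoImplicit false

namespace Pool.Agent.Fold

open Set Filter Topology
open scoped RealInnerProductSpace

section variation

lemma eVar_congr {α E E' : Type*} [LinearOrder α] [PseudoEMetricSpace E] [PseudoEMetricSpace E']
    {f : α → E} {g : α → E'} {s : Set α}
    (h : ∀ x ∈ s, ∀ y ∈ s, edist (f x) (f y) = edist (g x) (g y)) :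
    eVariationOn f s = eVariationOn g s := by
  unfold eVariationOn
  refine iSup_congr fun p => Finset.sum_congr rfl fun i _ => ?_
  exact h _ (p.2.2.2 _) _ (p.2.2.2 _)

lemma eVar_le {E : Type*} [PseudoMetricSpace E] {f : ℝ → E} {a b c : ℝ} (hab : a ≤ b)
    (hc : 0 ≤ c) (h : ∀ x ∈ Icc a b, ∀ y ∈ Icc a b, dist (f x) (f y) ≤ c * |x - y|) :
    eVariationOn f (Icc a b) ≤ ENNReal.ofReal (c * (b - a)) := by
  have hL : LipschitzOnWith ⟨c, hc⟩ f (Icc a b) := by
    refine LipschitzOnWith.of_dist_le_mul fun x hx y hy => ?_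
    rw [Real.dist_eq]
    exact h x hx y hy
  have h1 := hL.comp_eVariationOn_le (g := id) (s := Icc a b) (fun x hx => hx)
  have h2 : eVariationOn (id : ℝ → ℝ) (Icc a b) = ENNReal.ofReal (b - a) := by
    have := MonotoneOn.eVariationOn_eq (f := (id : ℝ → ℝ)) (s := Icc a b) (a := a) (b := b)
      (monotone_id.monotoneOn _) (left_mem_Icc.mpr hab) (right_mem_Icc.mpr hab)
    rw [inter_self] at this
    exact this
  rw [h2] at h1
  refine h1.trans (le_of_eq ?_)
  rw [ENNReal.ofReal_mul hc]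
  congr 1
  rw [ENNReal.ofReal]
  congr 1
  exact (Real.toNNReal_of_nonneg hc).symm

lemma speed_le {c c' δ : ℝ} (hδ : 0 < δ)
    (h : ∀ t ∈ Ioc (0 : ℝ) δ, 2 * Real.sin (c * t / 2) ≤ c' * t) : c ≤ c' := by
  have h1 : HasDerivAt (fun t : ℝ => 2 * Real.sin (c * t / 2)) c 0 := by
    have h2 : HasDerivAt (fun t : ℝ => c * t / 2) (c / 2) 0 := by
      have := ((hasDerivAt_id (0 : ℝ)).const_mul c).div_const 2
      simpa using this
    have h3 := (h2.sin).const_mul 2
    have h4 : 2 * (Real.cos (c * 0 / 2) * (c / 2)) = c := by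
      rw [mul_zero, zero_div, Real.cos_zero]; ring
    rwa [h4] at h3
  have h4 := h1.tendsto_slope_zero_right
  refine le_of_tendsto h4 ?_
  have h5 : ∀ᶠ t in 𝓝[>] (0 : ℝ), t ∈ Ioc 0 δ := Ioc_mem_nhdsGT hδ
  filter_upwards [h5] with t ht
  have h6 := h t ht
  simp only [zero_add, mul_zero, zero_div, Real.sin_zero, sub_zero, smul_eq_mul]
  rw [inv_mul_le_iff₀ ht.1]
  linarith

end variation

section arcs

variable {E : Type*} [NormedAddCommGroup E] [InnerProductSpace ℝ E]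

/-- The great circle arc. -/
noncomputable def arc (c : ℝ) (u v : E) (t : ℝ) : E := Real.cos (c * t) • u + Real.sin (c * t) • v

lemma norm_arc_sub {c : ℝ} {u v : E} (hu : ‖u‖ = 1) (hv : ‖v‖ = 1) (huv : ⟪u, v⟫ = 0)
    (s t : ℝ) : ‖arc c u v t - arc c u v s‖ = 2 * |Real.sin (c * (t - s) / 2)| := by
  have h1 : ‖arc c u v t - arc c u v s‖ ^ 2 = (2 * |Real.sin (c * (t - s) / 2)|) ^ 2 := by
    have e : arc c u v t - arc c u v s = (Real.cos (c * t) - Real.cos (c * s)) • u +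
        (Real.sin (c * t) - Real.sin (c * s)) • v := by
      unfold arc; module
    rw [e, norm_add_sq_real, norm_smul, norm_smul, real_inner_smul_left, real_inner_smul_right,
      huv, hu, hv]
    simp only [mul_pow, mul_one, Real.norm_eq_abs, sq_abs, mul_zero, add_zero]
    have h2 : Real.cos (c * (t - s)) = 1 - 2 * Real.sin (c * (t - s) / 2) ^ 2 := by
      have := Real.cos_two_mul (c * (t - s) / 2)
      have h3 := Real.sin_sq_add_cos_sq (c * (t - s) / 2)
      rw [show 2 * (c * (t - s) / 2) = c * (t - s) by ring] at this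
      rw [this]; linarith
    have h3 : Real.cos (c * (t - s)) = Real.cos (c * t) * Real.cos (c * s) +
        Real.sin (c * t) * Real.sin (c * s) := by
      rw [mul_sub, Real.cos_sub]
    have h4 := Real.sin_sq_add_cos_sq (c * t)
    have h5 := Real.sin_sq_add_cos_sq (c * s)
    nlinarith
  exact (sq_eq_sq₀ (norm_nonneg _) (by positivity)).mp h1

lemma norm_arc {c : ℝ} {u v : E} (hu : ‖u‖ = 1) (hv : ‖v‖ = 1) (huv : ⟪u, v⟫ = 0)
    (t : ℝ) : ‖arc c u v t‖ = 1 := by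
  have h1 : ‖arc c u v t‖ ^ 2 = 1 ^ 2 := by
    unfold arc
    rw [norm_add_sq_real, norm_smul, norm_smul, real_inner_smul_left, real_inner_smul_right,
      huv, hu, hv]
    simp only [mul_one, Real.norm_eq_abs, sq_abs, mul_zero, add_zero]
    have h4 := Real.sin_sq_add_cos_sq (c * t)
    linarith
  exact (sq_eq_sq₀ (norm_nonneg _) (by positivity)).mp h1

lemma norm_arc_sub_le {c : ℝ} {u v : E} (hc : 0 ≤ c) (hu : ‖u‖ = 1) (hv : ‖v‖ = 1)
    (huv : ⟪u, v⟫ = 0) (s t : ℝ) : ‖arc c u v t - arc c u v s‖ ≤ c * |t - s| := by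
  rw [norm_arc_sub hu hv huv]
  have h1 : |Real.sin (c * (t - s) / 2)| ≤ |c * (t - s) / 2| := Real.abs_sin_le_abs
  rw [abs_div, abs_mul, abs_of_nonneg hc, abs_of_pos (by norm_num : (0 : ℝ) < 2)] at h1
  linarith

lemma arc_add (c : ℝ) (u v : E) (t₀ h : ℝ) :
    arc c u v (t₀ + h) = Real.cos (c * h) • arc c u v t₀ +
      Real.sin (c * h) • (-(Real.sin (c * t₀)) • u + Real.cos (c * t₀) • v) := by
  unfold arc
  rw [mul_add, Real.cos_add, Real.sin_add]
  module

end arcs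

/-- The unit sphere. -/
abbrev Sph (V : Type*) [NormedAddCommGroup V] : Type _ := Metric.sphere (0 : V) 1

section rays

variable {V W : Type*} [NormedAddCommGroup V] [InnerProductSpace ℝ V]
  [NormedAddCommGroup W] [InnerProductSpace ℝ W]

lemma IsFold.ray {F : V → W} (hF : IsFold F) (x w : V) :
    ∃ A : V →ₗᵢ[ℝ] W, ∃ s > (0 : ℝ), ∀ t ∈ Icc (0 : ℝ) s, F (x + t • w) = A (x + t • w) := by
  obtain ⟨hc, 𝒜, hf, hFA⟩ := hF
  have ev := IsFold.eventually hc hf hFA x
  have t1 : Tendsto (fun t : ℝ => x + t • w) (𝓝 0) (𝓝 x) := by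
    have : Continuous (fun t : ℝ => x + t • w) := by fun_prop
    simpa using this.tendsto 0
  obtain ⟨ε, hε, hball⟩ := Metric.eventually_nhds_iff.mp (t1.eventually ev)
  set s := ε / 2 with hs
  have hs0 : 0 < s := by positivity
  have hloc : ∀ t ∈ Icc (0 : ℝ) s, ∃ A ∈ 𝒜, F x = A x ∧ F (x + t • w) = A (x + t • w) := by
    intro t ht
    apply hball
    rw [Real.dist_eq, sub_zero, abs_of_nonneg ht.1]
    linarith [ht.2]
  let q : ℝ → W := fun t => t⁻¹ • (F (x + t • w) - F x)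
  let T : Set W := (fun A : V →ₗᵢ[ℝ] W => A w) '' 𝒜
  have hT : T.Finite := hf.image _
  have hqc : ContinuousOn q (Ioc 0 s) := by
    refine ContinuousOn.smul (continuousOn_inv₀.mono fun t ht => ?_) ?_
    · exact ht.1.ne'
    · have : Continuous (fun t : ℝ => F (x + t • w) - F x) :=
        (hc.comp (by fun_prop)).sub continuous_const
      exact this.continuousOn
  have hval : ∀ t ∈ Ioc (0 : ℝ) s, ∀ A : V →ₗᵢ[ℝ] W, F x = A x →
      F (x + t • w) = A (x + t • w) → q t = A w := by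
    intro t ht A h1 h2
    show t⁻¹ • (F (x + t • w) - F x) = A w
    rw [h1, h2, map_add, map_smul, add_sub_cancel_left, smul_smul, inv_mul_cancel₀ ht.1.ne',
      one_smul]
  have hmaps : MapsTo q (Ioc 0 s) T := by
    intro t ht
    obtain ⟨A, hA, h1, h2⟩ := hloc t ⟨ht.1.le, ht.2⟩
    exact ⟨A, hA, (hval t ht A h1 h2).symm⟩
  obtain ⟨A, hA, h1, h2⟩ := hloc s ⟨hs0.le, le_rfl⟩
  have hsA : q s = A w := hval s ⟨hs0, le_rfl⟩ A h1 h2
  refine ⟨A, s, hs0, fun t ht => ?_⟩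
  rcases eq_or_lt_of_le ht.1 with h0 | h0
  · rw [← h0]; simpa using h1
  · have h3 : q t = q s :=
      isPreconnected_Ioc.constant_of_mapsTo hT.isDiscrete hqc hmaps ⟨h0, ht.2⟩ ⟨hs0, le_rfl⟩
    have h4 : F (x + t • w) = F x + t • q t := by
      show F (x + t • w) = F x + t • t⁻¹ • (F (x + t • w) - F x)
      rw [smul_smul, mul_inv_cancel₀ h0.ne', one_smul]; abel
    rw [h4, h3, hsA, h1, map_add, map_smul]

lemma IsFold.arc_right {F : V → W} (hF : IsFold F) {c : ℝ} (hc : 0 ≤ c) (u v : V) (t₀ : ℝ) :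
    ∃ A : V →ₗᵢ[ℝ] W, ∃ ε > (0 : ℝ), ∀ h ∈ Icc (0 : ℝ) ε,
      F (arc c u v (t₀ + h)) = A (arc c u v (t₀ + h)) := by
  obtain ⟨A, s, hs, hA⟩ := hF.ray (arc c u v t₀)
    (-(Real.sin (c * t₀)) • u + Real.cos (c * t₀) • v)
  have t1 : Tendsto (fun h : ℝ => s * Real.cos (c * h) - Real.sin (c * h)) (𝓝 0) (𝓝 s) := by
    have : Continuous (fun h : ℝ => s * Real.cos (c * h) - Real.sin (c * h)) := by fun_prop
    simpa using this.tendsto 0
  have t2 : Tendsto (fun h : ℝ => Real.cos (c * h)) (𝓝 0) (𝓝 1) := by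
    have : Continuous (fun h : ℝ => Real.cos (c * h)) := by fun_prop
    simpa using this.tendsto 0
  have t3 : Tendsto (fun h : ℝ => c * h) (𝓝 0) (𝓝 0) := by
    have : Continuous (fun h : ℝ => c * h) := by fun_prop
    simpa using this.tendsto 0
  have ev := ((t1.eventually (lt_mem_nhds hs)).and (t2.eventually (lt_mem_nhds one_pos))).and
    (t3.eventually (gt_mem_nhds Real.pi_pos))
  obtain ⟨ε, hε, hball⟩ := Metric.eventually_nhds_iff.mp ev
  refine ⟨A, ε / 2, by positivity, fun h hh => ?_⟩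
  obtain ⟨⟨h1, h2⟩, h3⟩ := hball (y := h) (by
    rw [Real.dist_eq, sub_zero, abs_of_nonneg hh.1]; linarith [hh.2])
  have h4 : 0 ≤ Real.sin (c * h) :=
    Real.sin_nonneg_of_nonneg_of_le_pi (mul_nonneg hc hh.1) h3.le
  set w := -(Real.sin (c * t₀)) • u + Real.cos (c * t₀) • v with hw
  have e : arc c u v (t₀ + h) =
      Real.cos (c * h) • (arc c u v t₀ + (Real.sin (c * h) / Real.cos (c * h)) • w) := by
    rw [arc_add, ← hw, smul_add (Real.cos (c * h)) (arc c u v t₀), smul_smul (Real.cos (c * h)),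
      mul_div_cancel₀ _ h2.ne']
  have h5 : Real.sin (c * h) / Real.cos (c * h) ∈ Icc (0 : ℝ) s := by
    refine ⟨by positivity, ?_⟩
    rw [div_le_iff₀ h2]; linarith
  rw [e, hF.smul_nonneg h2.le, hA _ h5, ← map_smul]

lemma IsFold.arc_left {F : V → W} (hF : IsFold F) {c : ℝ} (hc : 0 ≤ c) (u v : V) (t₀ : ℝ) :
    ∃ A : V →ₗᵢ[ℝ] W, ∃ ε > (0 : ℝ), ∀ h ∈ Icc (0 : ℝ) ε,
      F (arc c u v (t₀ - h)) = A (arc c u v (t₀ - h)) := by
  obtain ⟨A, ε, hε, hA⟩ := hF.arc_right hc u (-v) (-t₀)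
  refine ⟨A, ε, hε, fun h hh => ?_⟩
  have e : arc c u (-v) (-t₀ + h) = arc c u v (t₀ - h) := by
    unfold arc
    rw [show c * (-t₀ + h) = -(c * (t₀ - h)) by ring, Real.cos_neg, Real.sin_neg]
    simp
  rw [← e]
  exact hA h hh

end rays

section fold_to_path

variable {V : Type*} [NormedAddCommGroup V] [InnerProductSpace ℝ V]

lemma PiecewiseGeodesicOn.refl (γ : ℝ → Sph V) (a : ℝ) : PiecewiseGeodesicOn γ a a :=
  ⟨0, fun _ => a, rfl, rfl, fun i hi => absurd hi (Nat.not_lt_zero i)⟩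

lemma PiecewiseGeodesicOn.single {γ : ℝ → Sph V} {a b : ℝ} (hab : a ≤ b)
    (h : GeodesicOn γ a b) : PiecewiseGeodesicOn γ a b := by
  refine ⟨1, fun i => if i = 0 then a else b, by simp, by simp, ?_⟩
  intro i hi
  obtain rfl : i = 0 := by omega
  simpa using ⟨hab, h⟩

lemma PiecewiseGeodesicOn.trans {γ : ℝ → Sph V} {a b c : ℝ} (h : PiecewiseGeodesicOn γ a b)
    (h' : PiecewiseGeodesicOn γ b c) : PiecewiseGeodesicOn γ a c := by
  obtain ⟨k, t, h0, hk, ht⟩ := h
  obtain ⟨l, s, h0', hl, hs⟩ := h'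
  refine ⟨k + l, fun i => if i < k then t i else s (i - k), ?_, ?_, ?_⟩
  · by_cases hk0 : 0 < k
    · simp [hk0, h0]
    · obtain rfl : k = 0 := by omega
      simp only [lt_self_iff_false, if_false, Nat.sub_zero]
      rw [h0', ← hk, h0]
  · simp [hl]
  · intro i hi
    by_cases h1 : i + 1 < k
    · have h2 : i < k := by omega
      simp only [h1, h2, if_true]
      exact ht i h2
    · by_cases h2 : i < k
      · have h3 : i + 1 - k = 0 := by omega
        have h4 : i + 1 = k := by omega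
        simp only [h1, h2, if_true, if_false, h3, h0']
        have := ht i h2
        rwa [h4, hk] at this
      · have h3 : i + 1 - k = (i - k) + 1 := by omega
        simp only [h1, h2, if_false, h3]
        exact hs (i - k) (by omega)

/-- Good intervals. -/
def Good (f : C(Sph V, Sph V)) (γ : ℝ → Sph V) (a b : ℝ) : Prop :=
  PiecewiseGeodesicOn (fun t => f (γ t)) a b ∧
    eVariationOn (fun t => f (γ t)) (Icc a b) = eVariationOn γ (Icc a b)

lemma Good.refl (f : C(Sph V, Sph V)) (γ : ℝ → Sph V) (a : ℝ) : Good f γ a a := by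
  refine ⟨PiecewiseGeodesicOn.refl _ a, ?_⟩
  rw [Icc_self, eVariationOn.subsingleton _ subsingleton_singleton,
    eVariationOn.subsingleton _ subsingleton_singleton]

lemma eVar_add {E : Type*} [PseudoEMetricSpace E] (f : ℝ → E) {a b c : ℝ} (hab : a ≤ b)
    (hbc : b ≤ c) :
    eVariationOn f (Icc a b) + eVariationOn f (Icc b c) = eVariationOn f (Icc a c) := by
  have := eVariationOn.Icc_add_Icc f (s := univ) hab hbc (mem_univ b)
  simpa only [univ_inter] using this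

lemma Good.trans {f : C(Sph V, Sph V)} {γ : ℝ → Sph V} {a b c : ℝ} (hab : a ≤ b) (hbc : b ≤ c)
    (h : Good f γ a b) (h' : Good f γ b c) : Good f γ a c := by
  refine ⟨h.1.trans h'.1, ?_⟩
  rw [← eVar_add _ hab hbc, ← eVar_add γ hab hbc, h.2, h'.2]

lemma good_piece {F : V → V} {f : C(Sph V, Sph V)}
    (hf : ∀ x : Sph V, (f x : V) = F x) {γ : ℝ → Sph V} {a b c t₁ t₂ : ℝ} {u v : V}
    (hc : 0 ≤ c) (hu : ‖u‖ = 1) (hv : ‖v‖ = 1) (huv : ⟪u, v⟫ = 0)
    (hγ : ∀ t ∈ Icc a b, (γ t : V) = arc c u v t) (h1 : a ≤ t₁) (h12 : t₁ ≤ t₂) (h2 : t₂ ≤ b)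
    (A : V →ₗᵢ[ℝ] V) (hA : ∀ t ∈ Icc t₁ t₂, F (arc c u v t) = A (arc c u v t)) :
    Good f γ t₁ t₂ := by
  have hsub : ∀ t ∈ Icc t₁ t₂, (f (γ t) : V) = A (γ t) := by
    intro t ht
    have h3 : t ∈ Icc a b := ⟨h1.trans ht.1, ht.2.trans h2⟩
    rw [hf, hγ t h3, hA t ht]
  refine ⟨PiecewiseGeodesicOn.single h12 ⟨c, A u, A v, hc, ?_, ?_, ?_, ?_⟩, ?_⟩
  · rw [A.norm_map, hu]
  · rw [A.norm_map, hv]
  · rw [A.inner_map_map, huv]
  · intro t ht
    have h3 : t ∈ Icc a b := ⟨h1.trans ht.1, ht.2.trans h2⟩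
    rw [hsub t ht, hγ t h3]
    unfold arc
    rw [map_add, map_smul, map_smul]
  · refine eVar_congr fun x hx y hy => ?_
    rw [Subtype.edist_eq, Subtype.edist_eq, hsub x hx, hsub y hy, A.isometry.edist_eq]

lemma good_of_geodesic {F : V → V} (hF : IsFold F) {f : C(Sph V, Sph V)}
    (hf : ∀ x : Sph V, (f x : V) = F x) {γ : ℝ → Sph V} {a b : ℝ} (hab : a ≤ b)
    (hγ : GeodesicOn γ a b) : Good f γ a b := by
  obtain ⟨c, u, v, hc, hu, hv, huv, hγ⟩ := hγ
  have hr : ∀ t₀ : ℝ, ∃ A : V →ₗᵢ[ℝ] V, ∃ ε > (0 : ℝ), ∀ h ∈ Icc (0 : ℝ) ε,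
      F (arc c u v (t₀ + h)) = A (arc c u v (t₀ + h)) := hF.arc_right hc u v
  have hl : ∀ t₀ : ℝ, ∃ A : V →ₗᵢ[ℝ] V, ∃ ε > (0 : ℝ), ∀ h ∈ Icc (0 : ℝ) ε,
      F (arc c u v (t₀ - h)) = A (arc c u v (t₀ - h)) := hF.arc_left hc u v
  choose A ε hε hA using hr
  choose A' ε' hε' hA' using hl
  obtain ⟨t, ht0, htm, ⟨N, hN⟩, hcov⟩ := exists_monotone_Icc_subset_open_cover_Icc hab
    (c := fun x : Icc a b => Metric.ball x (min (ε x) (ε' x)))
    (fun x => Metric.isOpen_ball) (fun x _ => mem_iUnion.mpr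
      ⟨x, Metric.mem_ball_self (lt_min (hε x) (hε' x))⟩)
  -- each step is good
  have hstep : ∀ n, Good f γ (t n) (t (n + 1)) := by
    intro n
    obtain ⟨x, hx⟩ := hcov n
    have hmono : (t n : ℝ) ≤ t (n + 1) := htm (Nat.le_succ n)
    have hn1 : |(t n : ℝ) - x| < min (ε x) (ε' x) := by
      have := hx (left_mem_Icc.mpr (htm (Nat.le_succ n)))
      rwa [Metric.mem_ball, Subtype.dist_eq, Real.dist_eq] at this
    have hn2 : |(t (n + 1) : ℝ) - x| < min (ε x) (ε' x) := by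
      have := hx (right_mem_Icc.mpr (htm (Nat.le_succ n)))
      rwa [Metric.mem_ball, Subtype.dist_eq, Real.dist_eq] at this
    rw [lt_min_iff, abs_lt, abs_lt] at hn1 hn2
    have hgoodr : ∀ t₁ t₂ : ℝ, a ≤ t₁ → (x : ℝ) ≤ t₁ → t₁ ≤ t₂ → t₂ ≤ b → t₂ - x < ε x →
        Good f γ t₁ t₂ := by
      intro t₁ t₂ h1 h2 h3 h4 h5
      refine good_piece hf hc hu hv huv hγ h1 h3 h4 (A x) fun s hs => ?_
      have := hA x (s - x) ⟨by linarith [hs.1], by linarith [hs.2]⟩
      rwa [add_sub_cancel] at this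
    have hgoodl : ∀ t₁ t₂ : ℝ, a ≤ t₁ → t₂ ≤ (x : ℝ) → t₁ ≤ t₂ → t₂ ≤ b → (x : ℝ) - t₁ < ε' x →
        Good f γ t₁ t₂ := by
      intro t₁ t₂ h1 h2 h3 h4 h5
      refine good_piece hf hc hu hv huv hγ h1 h3 h4 (A' x) fun s hs => ?_
      have := hA' x (x - s) ⟨by linarith [hs.2], by linarith [hs.1]⟩
      rwa [sub_sub_cancel] at this
    rcases le_total (x : ℝ) (t n) with h1 | h1
    · exact hgoodr _ _ (t n).2.1 h1 hmono (t (n + 1)).2.2 (by linarith [hn2.1.2])
    · rcases le_total (x : ℝ) (t (n + 1)) with h2 | h2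
      · exact Good.trans h1 h2 (hgoodl _ _ (t n).2.1 le_rfl h1 x.2.2 (by linarith [hn1.2.1]))
          (hgoodr _ _ x.2.1 le_rfl h2 (t (n + 1)).2.2 (by linarith [hn2.1.2]))
      · exact hgoodl _ _ (t n).2.1 h2 hmono (t (n + 1)).2.2 (by linarith [hn1.2.1])
  have hall : ∀ n, Good f γ a (t n) := by
    intro n
    induction n with
    | zero => rw [ht0]; exact Good.refl f γ a
    | succ n ih => exact Good.trans (t n).2.1 (htm (Nat.le_succ n)) ih (hstep n)
  have := hall N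
  rwa [hN N le_rfl] at this

/-- A linear folding restricts to an isometric folding of the sphere. -/
theorem isIsometricFolding_of_isFold {F : V → V} (hF : IsFold F) {f : C(Sph V, Sph V)}
    (hf : ∀ x : Sph V, (f x : V) = F x) : IsIsometricFolding f := by
  have key : ∀ (a b : ℝ) (γ : ℝ → Sph V), PiecewiseGeodesicOn γ a b → Good f γ a b := by
    rintro a b γ ⟨k, t, h0, hk, ht⟩
    have hall : ∀ i ≤ k, t 0 ≤ t i ∧ Good f γ (t 0) (t i) := by
      intro i
      induction i with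
      | zero => exact fun _ => ⟨le_rfl, Good.refl f γ _⟩
      | succ i ih =>
        intro hi
        obtain ⟨h1, h2⟩ := ih (by omega)
        obtain ⟨h3, h4⟩ := ht i (by omega)
        exact ⟨h1.trans h3, Good.trans h1 h3 h2 (good_of_geodesic hF hf h3 h4)⟩
    have := (hall k le_rfl).2
    rwa [h0, hk] at this
  exact ⟨fun a b γ _ h => (key a b γ h).1, fun a b γ _ h => (key a b γ h).2⟩

end fold_to_path

end Pool.Agent.Fold
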