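import Pool.Agent.Lib_MP_9d9d56_gt.Homotopy

/-!
# Two surgeries bring a non-trivial folding to suspended form
-/

set_option autoImplicit false

namespace Pool.Agent.Fold

open Set Filter Topology
open scoped RealInnerProductSpace unitInterval

variable {V W : Type*} [NormedAddCommGroup V] [InnerProductSpace ℝ V]
  [NormedAddCommGroup W] [InnerProductSpace ℝ W]

open Classical in
/-- The surgered map. -/
noncomputable def surg (F : V → W) (p : V) (q : W) (x : V) : W :=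
  if h : ∃ s, Sol F p q x s then F (x - h.choose • p) + h.choose • q else 0

lemma surg_eq {F : V → W} (hF : IsFold F) {p : V} {q : W} (hp : ‖p‖ = 1) (hq : ‖q‖ = 1) {x : V}
    {s : ℝ} (hs : Sol F p q x s) : surg F p q x = F (x - s • p) + s • q := by
  have hex : ∃ s, Sol F p q x s := ⟨s, hs⟩
  unfold surg
  rw [dif_pos hex]
  set s' := hex.choose
  have hs' : Sol F p q x s' := hex.choose_spec
  have h1 := key_estimate hF hp hq hq hs' hs (R := max ‖x‖ (max s' s)) (le_max_left _ _)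
    (le_max_left _ _) ((le_max_left _ _).trans (le_max_right _ _))
    ((le_max_right _ _).trans (le_max_right _ _))
  rw [sub_self x, sub_self q, norm_zero, norm_zero] at h1
  have h2 : ‖F (x - s' • p) + s' • q - (F (x - s • p) + s • q)‖ = 0 := by
    have := norm_nonneg (F (x - s' • p) + s' • q - (F (x - s • p) + s • q))
    nlinarith
  exact sub_eq_zero.mp (norm_eq_zero.mp h2)

lemma surg_homotopic_path {F : V → W} (hF : IsFold F) {p : V} (hp : ‖p‖ = 1) {q : I → W}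
    (hqc : Continuous q) (hq : ∀ t, ‖q t‖ = 1) (hne : ∀ t, q t ≠ -F (-p)) :
    FH (surg F p (q 0)) (surg F p (q 1)) := by
  obtain ⟨H, hc, hf, hH⟩ := surgery hF hp hqc hq hne
  have key : ∀ t x, H (t, x) = surg F p (q t) x := by
    intro t x
    obtain ⟨s, hs⟩ := exists_sol hF hp (hq t) (hne t) x
    rw [hH t x s hs, surg_eq hF hp (hq t) hs]
  exact ⟨H, hc, key 0, key 1, hf⟩

/-- Straight path on the sphere towards `a`, from `q ≠ -a`. -/
lemma path_to (a q : W) (ha : ‖a‖ = 1) (hq : ‖q‖ = 1) (hne : q ≠ -a) :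
    ∃ γ : I → W, Continuous γ ∧ (∀ t, ‖γ t‖ = 1) ∧ (∀ t, γ t ≠ -a) ∧ γ 0 = q ∧ γ 1 = a := by
  set w : I → W := fun t => (1 - (t : ℝ)) • q + (t : ℝ) • a with hw
  have hwc : Continuous w := by fun_prop
  have key : ∀ t, ∀ c : ℝ, 0 ≤ c → w t ≠ -(c • a) := by
    intro t c hc h
    have h1 : (1 - (t : ℝ)) • q = -((c + t) • a) := by
      have h2 : (1 - (t : ℝ)) • q = w t - (t : ℝ) • a := by
        show (1 - (t : ℝ)) • q = ((1 - (t : ℝ)) • q + (t : ℝ) • a) - (t : ℝ) • a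
        rw [add_sub_cancel_right]
      rw [h2, h, add_smul]; abel
    have ht0 : (0 : ℝ) ≤ t := t.2.1
    have ht1 : (0 : ℝ) ≤ 1 - t := by have := t.2.2; linarith
    have h3 := congrArg norm h1
    rw [norm_smul, norm_neg, norm_smul, ha, hq, mul_one, mul_one, Real.norm_of_nonneg ht1,
      Real.norm_of_nonneg (by linarith)] at h3
    rcases ht1.eq_or_lt with h4 | h4
    · linarith
    · apply hne
      rw [← h3, ← smul_neg] at h1
      exact smul_right_injective W h4.ne' h1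
  have hw0 : ∀ t, w t ≠ 0 := by
    intro t h
    exact key t 0 le_rfl (by simp [h])
  refine ⟨fun t => ‖w t‖⁻¹ • w t, ?_, ?_, ?_, ?_, ?_⟩
  · exact (hwc.norm.inv₀ (fun t => norm_ne_zero_iff.mpr (hw0 t))).smul hwc
  · intro t
    rw [norm_smul, norm_inv, norm_norm, inv_mul_cancel₀ (norm_ne_zero_iff.mpr (hw0 t))]
  · intro t h
    apply key t ‖w t‖ (norm_nonneg _)
    have h1 := congrArg (fun z => ‖w t‖ • z) h
    simp only at h1
    rw [smul_smul, mul_inv_cancel₀ (norm_ne_zero_iff.mpr (hw0 t)), one_smul, smul_neg] at h1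
    exact h1
  · simp [hw, hq]
  · simp [hw, ha]

lemma surg_homotopic {F : V → W} (hF : IsFold F) {p : V} (hp : ‖p‖ = 1) {q₀ q₁ : W}
    (hq₀ : ‖q₀‖ = 1) (hq₁ : ‖q₁‖ = 1) (h₀ : q₀ ≠ -F (-p)) (h₁ : q₁ ≠ -F (-p)) :
    FH (surg F p q₀) (surg F p q₁) := by
  have ha : ‖F (-p)‖ = 1 := by rw [hF.norm_map, norm_neg, hp]
  have key : ∀ q : W, ‖q‖ = 1 → q ≠ -F (-p) → FH (surg F p q) (surg F p (F (-p))) := by
    intro q hq hne
    obtain ⟨γ, hγc, hγ1, hγ2, hγ3, hγ4⟩ := path_to (F (-p)) q ha hq hne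
    have := surg_homotopic_path hF hp hγc hγ1 hγ2
    rwa [hγ3, hγ4] at this
  exact (key q₀ hq₀ h₀).trans (key q₁ hq₁ h₁).symm

lemma surg_self {F : V → W} (hF : IsFold F) {p : V} (hp : ‖p‖ = 1) : surg F p (F p) = F := by
  funext x
  have hs : Sol F p (F p) x 0 := by
    refine ⟨le_rfl, ?_, by simp⟩
    unfold psi
    have := hF.inner_le (x - (0 : ℝ) • p) p
    linarith
  rw [surg_eq hF hp (by rw [hF.norm_map, hp]) hs]
  simp

lemma homotopic_surg {F : V → W} (hF : IsFold F) {p : V} (hp : ‖p‖ = 1) {q : W}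
    (hq : ‖q‖ = 1) (h₀ : F p ≠ -F (-p)) (h₁ : q ≠ -F (-p)) : FH F (surg F p q) := by
  have := surg_homotopic hF hp (by rw [hF.norm_map, hp] : ‖F p‖ = 1) hq h₀ h₁
  rwa [surg_self hF hp] at this

/-- First surgery. -/
lemma stage_one {F : V → W} (hF : IsFold F) {p : V} (hp : ‖p‖ = 1) {c : W} (hc : ‖c‖ = 1)
    (hpos : ∀ x, 0 ≤ ⟪F x, c⟫) (h₀ : F p ≠ -F (-p)) (h₁ : F (-p) ≠ c) :
    ∃ F₁ : V → W, FH F F₁ ∧ F₁ (-p) = F (-p) ∧
      ∀ y, ⟪y, p⟫ = 0 → ∀ r : ℝ, 0 ≤ r → F₁ (y + r • p) = F₁ y + r • (-c) := by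
  have hq : ‖-c‖ = 1 := by rw [norm_neg, hc]
  have hne : -c ≠ -F (-p) := fun h => h₁ (neg_injective h).symm
  refine ⟨surg F p (-c), homotopic_surg hF hp hq h₀ hne, ?_, ?_⟩
  · have hs : Sol F p (-c) (-p) 0 := by
      refine ⟨le_rfl, ?_, by simp⟩
      unfold psi
      have h2 : ⟪F (-p), c⟫ ≤ 1 := by
        have := real_inner_le_norm (F (-p)) c
        rwa [hF.norm_map, norm_neg, hp, hc, one_mul] at this
      rw [zero_smul, sub_zero, inner_neg_left, real_inner_self_eq_norm_sq, hp, inner_neg_right]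
      linarith
    rw [surg_eq hF hp hq hs]; simp
  · intro y hy r hr
    obtain ⟨s, hs⟩ := exists_sol hF hp hq hne y
    have hzero : psi F p (-c) y s = 0 := by
      rcases hs.nonneg.eq_or_lt with h | h
      · apply le_antisymm hs.nonpos
        rw [← h]
        unfold psi
        rw [zero_smul, sub_zero, hy, inner_neg_right]
        have := hpos y
        linarith
      · rcases mul_eq_zero.mp hs.compl with h2 | h2
        · exact absurd h2 h.ne'
        · exact h2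
    have hxr : y + r • p - (s + r) • p = y - s • p := by rw [add_smul]; abel
    have hs2 : Sol F p (-c) (y + r • p) (s + r) := by
      have h3 : psi F p (-c) (y + r • p) (s + r) = 0 := by
        unfold psi; rw [hxr]; exact hzero
      exact ⟨by linarith [hs.nonneg], h3.le, by rw [h3, mul_zero]⟩
    rw [surg_eq hF hp hq hs2, surg_eq hF hp hq hs, hxr, add_smul]; abel

/-- Second surgery. -/
lemma stage_two {F₁ : V → W} (hF : IsFold F₁) {p : V} (hp : ‖p‖ = 1) {q : W} (hq : ‖q‖ = 1)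
    (h₁ : F₁ (-p) ≠ -q)
    (hlin : ∀ y, ⟪y, p⟫ = 0 → ∀ r : ℝ, 0 ≤ r → F₁ (y + r • p) = F₁ y + r • q) :
    (∀ y, ⟪y, p⟫ = 0 → ⟪F₁ y, q⟫ = 0) ∧
    ∃ F₂ : V → W, FH F₁ F₂ ∧ ∀ y, ⟪y, p⟫ = 0 → ∀ r : ℝ, F₂ (y + r • p) = F₁ y + |r| • q := by
  have horth : ∀ y, ⟪y, p⟫ = 0 → ⟪F₁ y, q⟫ = 0 := by
    intro y hy
    have h2 := hlin y hy 1 zero_le_one
    have h3 : ‖F₁ (y + (1 : ℝ) • p)‖ ^ 2 = ‖F₁ y + (1 : ℝ) • q‖ ^ 2 := by rw [h2]
    rw [hF.norm_map, one_smul, one_smul, norm_add_sq_real, norm_add_sq_real, hy, hF.norm_map, hp,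
      hq] at h3
    linarith
  refine ⟨horth, ?_⟩
  have hnp : ‖-p‖ = 1 := by rw [norm_neg, hp]
  have hF1p : F₁ p = q := by
    have := hlin 0 (by simp) 1 zero_le_one
    simpa [hF.map_zero] using this
  have hq0 : q ≠ 0 := by
    intro h; rw [h, norm_zero] at hq; exact zero_ne_one hq
  have e1 : F₁ (-p) ≠ -F₁ (-(-p)) := by rw [neg_neg, hF1p]; exact h₁
  have e2 : q ≠ -F₁ (-(-p)) := by
    rw [neg_neg, hF1p]
    intro h
    apply hq0
    have h2 : (2 : ℝ) • q = 0 := by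
      rw [two_smul]; nth_rewrite 1 [h]; simp
    simpa using h2
  refine ⟨surg F₁ (-p) q, homotopic_surg hF hnp hq e1 e2, ?_⟩
  intro y hy r
  rcases le_total 0 r with hr | hr
  · have hs : Sol F₁ (-p) q (y + r • p) 0 := by
      refine ⟨le_rfl, ?_, by simp⟩
      unfold psi
      rw [zero_smul, sub_zero, hlin y hy r hr, inner_add_left, inner_add_left, inner_smul_left,
        inner_smul_left, inner_neg_right, inner_neg_right, hy, horth y hy,
        real_inner_self_eq_norm_sq, real_inner_self_eq_norm_sq, hp, hq]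
      simp only [conj_trivial]
      linarith
    rw [surg_eq hF hnp hq hs, zero_smul, sub_zero, zero_smul, add_zero, hlin y hy r hr,
      abs_of_nonneg hr]
  · have hxr : y + r • p - (-r) • (-p) = y := by simp
    have hs : Sol F₁ (-p) q (y + r • p) (-r) := by
      have h3 : psi F₁ (-p) q (y + r • p) (-r) = 0 := by
        unfold psi; rw [hxr, inner_neg_right, hy, horth y hy]; simp
      exact ⟨by linarith, h3.le, by rw [h3, mul_zero]⟩
    rw [surg_eq hF hnp hq hs, hxr, abs_of_nonpos hr]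

end Pool.Agent.Fold
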